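import Pool.Agent.Helper75.FU.StM

/-!
# Project FU, block K: the same theorems over more general coefficient rings

Instead of a local ring `R` we take a Noetherian ring all of whose unimodular rows of length `s + 2` are equivalent to
`(1;0)` (K5, K6), and then a ring which is a union of such rings (K7).  The proofs are those of M5, M6, M7.
-/

set_option autoImplicit false

namespace Pool.Agent.Helper75.FU

open Polynomial Pool.Agent.Helper91.GU

universe u

/-- every finite subset of `B` lies in a Noetherian subring of dimension at most `2 s` all of whose unimodular rows of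
length `s + 2` are equivalent to `(1;0)` -/
def Good (s : ℕ) (B : Type u) [CommRing B] : Prop := ∀ S : Finset B, ∃ C : Subring B,
  (∀ x ∈ S, x ∈ C) ∧ IsNoetherianRing C ∧ ringKrullDim C ≤ (2 * s : ℕ) ∧
  ∀ c : Unit ⊕ Fin (s + 1) → C, Um c → REq c (row 1 0)

/-- K5. The interior step. -/
def StK5 : Prop := ∀ (p s k : ℕ), p.Prime → 1 ≤ s → s + 1 < p →
  ∀ (R : Type u) [CommRing R] [IsNoetherianRing R] [CharP R p],
  (∀ c : Unit ⊕ Fin (s + 1) → R, Um c → REq c (row 1 0)) →
  ringKrullDim R ≤ (2 * s : ℕ) →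
  ∀ (N : Type) [AddCommMonoid N] (L : N →+ (Fin k → ℕ)), Function.Injective L →
  ∀ D : ℕ, 0 < D → (∀ i, ∃ g : N, L g = Pi.single i D) →
  ∀ v : Unit ⊕ Fin (s + 1) → AddMonoidAlgebra R N, Um v →
  (∀ (i : Fin k) (m : N), L m i = 0 → ∀ l, (v l).coeff m =
    (row (1 : AddMonoidAlgebra R N) (0 : Fin (s + 1) → AddMonoidAlgebra R N) l).coeff m) →
  REq v (row 1 0)

/-- K6. Monoid algebras. -/
def StK6 : Prop := ∀ (p s k : ℕ), p.Prime → 1 ≤ s → s + 1 < p →
  ∀ (R : Type u) [CommRing R] [IsNoetherianRing R] [CharP R p],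
  (∀ c : Unit ⊕ Fin (s + 1) → R, Um c → REq c (row 1 0)) →
  ringKrullDim R ≤ (2 * s : ℕ) →
  ∀ (N : Type) [AddCommMonoid N] (L : N →+ (Fin k → ℕ)), Function.Injective L →
  ∀ D : ℕ, 0 < D → (∀ i, ∃ g : N, L g = Pi.single i D) →
  ∀ v : Unit ⊕ Fin (s + 1) → AddMonoidAlgebra R N, Um v → REq v (row 1 0)

/-- K7. Subalgebras of polynomial rings over a ring `B` with `Good s B`.
Proof. As M7; the coefficients of the polynomials `v_l^q`, `w_l^q` lie in a subring `C` of `B` as in the definition of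
`Good`, and K6 is applied to `C[N]`.  The image of `C[N] → B[X_1..X_n]` lies in `A`. -/
def StK7 : Prop := ∀ (p s n : ℕ), p.Prime → 1 ≤ s → s + 1 < p →
  ∀ (B : Type u) [CommRing B] [CharP B p], Good s B →
  ∀ A : Subalgebra B (MvPolynomial (Fin n) B), PMono p A → Simpl A →
  ∀ v : Unit ⊕ Fin (s + 1) → A, Um v → REq v (row 1 0)

end Pool.Agent.Helper75.FU
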