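import Pool.Agent.Helper85.GU.M_GU
import Pool.Agent.Helper91.GU.All
import Pool.Agent.Helper75.FU.StK

/-!
# Project FU: good coefficient rings, and the set form of the statement
-/

set_option autoImplicit false

namespace Pool.Agent.Helper75.FU

open Polynomial Pool.Agent.Helper91.GU

universe u

/-- the set form of the statement: unimodular rows of length `r + 1` are first rows of matrices of determinant `1` -/
theorem setForm (A : Type u) [CommRing A] (s : ℕ)
    (h : ∀ v : Unit ⊕ Fin (s + 1) → A, Um v → REq v (row 1 0)) :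
    {v : Fin (s + 2) → A | Ideal.span (Set.range v) = ⊤} =
      Set.range (fun M : Matrix.SpecialLinearGroup (Fin (s + 2)) A =>
        (M : Matrix (Fin (s + 2)) (Fin (s + 2)) A) 0) := by
  ext v
  constructor
  · intro hv
    have h1 : (1 : A) ∈ Ideal.span (Set.range v) := by
      rw [show Ideal.span (Set.range v) = ⊤ from hv]
      exact Submodule.mem_top
    obtain ⟨w, hw⟩ := (Ideal.mem_span_range_iff_exists_fun).1 h1
    have hUm : Um (row (v 0) (fun j : Fin (s + 1) => v j.succ)) := by
      refine ⟨row (w 0) (fun j : Fin (s + 1) => w j.succ), ?_⟩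
      rw [Fin.sum_univ_succ] at hw
      simp only [row, dotProduct, Fintype.sum_sum_type, Sum.elim_inl, Sum.elim_inr,
        Finset.univ_unique, Finset.sum_singleton]
      rw [← hw]
      congr 1
      · exact mul_comm _ _
      · exact Finset.sum_congr rfl fun j _ => mul_comm _ _
    obtain ⟨M, hM, hM0⟩ := Pool.Agent.Helper85.GU.completion _ _ (h _ hUm)
    refine ⟨⟨M.submatrix (Pool.Agent.Helper85.GU.eqv (s + 1))
      (Pool.Agent.Helper85.GU.eqv (s + 1)), ?_⟩, ?_⟩
    · rw [Matrix.det_submatrix_equiv_self]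
      exact hM
    · funext j
      show (M.submatrix (Pool.Agent.Helper85.GU.eqv (s + 1))
        (Pool.Agent.Helper85.GU.eqv (s + 1))) 0 j = v j
      rw [Matrix.submatrix_apply]
      have e3 : Pool.Agent.Helper85.GU.eqv (s + 1) 0 = Sum.inl () := rfl
      rw [e3, hM0]
      refine Fin.cases ?_ (fun j => ?_) j
      · rfl
      · rfl
  · rintro ⟨⟨N, hN⟩, rfl⟩
    show Ideal.span (Set.range (N 0)) = ⊤
    rw [Ideal.eq_top_iff_one]
    have h2 : N * N.adjugate = 1 := by
      rw [Matrix.mul_adjugate, hN, one_smul]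
    have h3 := congrFun (congrFun h2 0) 0
    rw [Matrix.mul_apply, Matrix.one_apply_eq] at h3
    rw [← h3]
    exact Ideal.sum_mem _ fun j _ => Ideal.mul_mem_right _ _ (Ideal.subset_span ⟨j, rfl⟩)

/-- transport along a ring isomorphism -/
theorem trans_equiv {A B : Type u} [CommRing A] [CommRing B] (e : A ≃+* B) (s : ℕ)
    (h : ∀ v : Unit ⊕ Fin (s + 1) → A, Um v → REq v (row 1 0)) :
    ∀ v : Unit ⊕ Fin (s + 1) → B, Um v → REq v (row 1 0) := by
  intro v hv
  have h1 : Um (mp (e.symm : B →+* A) v) :=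
    ((aB7.{u} B A (e.symm : B →+* A)).1 (Unit ⊕ Fin (s + 1))).2.2.2.2.2.2 v hv
  have h2 := ((aB7.{u} A B (e : A →+* B)).1 (Unit ⊕ Fin (s + 1))).2.2.2.2.2.1 _ _ (h _ h1)
  have e1 : mp (e : A →+* B) (mp (e.symm : B →+* A) v) = v := by
    funext j
    simp [mp]
  have e2 : mp (e : A →+* B) (row (1 : A) (0 : Fin (s + 1) → A)) = row (1 : B) 0 := by
    funext j
    rcases j with j | j
    · exact map_one _
    · exact map_zero _
  rw [e1, e2] at h2
  exact h2

/-- a local Noetherian ring of dimension at most `2 s` is good -/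
theorem good_local (s : ℕ) (R : Type u) [CommRing R] [IsLocalRing R] [IsNoetherianRing R]
    (hd : ringKrullDim R ≤ (2 * s : ℕ)) : Good s R := by
  intro S
  refine ⟨⊤, fun x _ => Subring.mem_top x, ?_, ?_, ?_⟩
  · exact isNoetherianRing_of_ringEquiv R Subring.topEquiv.symm
  · rw [ringKrullDim_eq_of_ringEquiv (Subring.topEquiv : (⊤ : Subring R) ≃+* R)]
    exact hd
  · refine trans_equiv Subring.topEquiv.symm s ?_
    intro v hv
    have hrow : v = row (v (Sum.inl ())) (fun j => v (Sum.inr j)) := by
      funext l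
      rcases l with l | l <;> rfl
    rw [hrow] at hv ⊢
    exact aH4.{u} R (s + 1) _ _ hv

/-- graded subalgebras of polynomial rings are good (half range) -/
theorem good_graded (R : Type u) [CommRing R] [IsLocalRing R] [IsNoetherianRing R] (d m s : ℕ)
    (hs : 1 ≤ s) (hd : ringKrullDim R ≤ d) (hm : d + m ≤ 2 * s)
    (hf : IsUnit ((s + 1).factorial : R)) (B : Subalgebra R (MvPolynomial (Fin m) R))
    (hB : IsGr B) : Good s B := by
  classical
  intro S
  obtain ⟨A', hA', hfg, hgr', hmem⟩ := aH3.{u} R m B hB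
    (S.image (fun x : B => (x : MvPolynomial (Fin m) R))) (by
      intro f hf
      obtain ⟨x, -, rfl⟩ := Finset.mem_image.1 hf
      exact x.2)
  let φ : A' →+* B := (Subalgebra.inclusion hA').toRingHom
  have hφ : Function.Injective φ := Subalgebra.inclusion_injective hA'
  let e : A' ≃+* φ.range := RingEquiv.ofBijective φ.rangeRestrict
    ⟨fun x y h => hφ (congrArg Subtype.val h), φ.rangeRestrict_surjective⟩
  have hNA : IsNoetherianRing A' := by
    have := (Subalgebra.fg_iff_finiteType A').1 hfg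
    exact Algebra.FiniteType.isNoetherianRing R A'
  refine ⟨φ.range, ?_, ?_, ?_, ?_⟩
  · intro x hx
    exact ⟨⟨x, hmem _ (Finset.mem_image_of_mem _ hx)⟩, Subtype.ext rfl⟩
  · exact isNoetherianRing_of_ringEquiv A' e
  · rw [← ringKrullDim_eq_of_ringEquiv e]
    refine (aH1.{u} R d m hd A' hfg).trans ?_
    exact_mod_cast hm
  · refine trans_equiv e s ?_
    intro v hv
    have hrow : v = row (v (Sum.inl ())) (fun j => v (Sum.inr j)) := by
      funext l
      rcases l with l | l <;> rfl
    rw [hrow] at hv ⊢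
    exact aH5.{u} R d m s hs hd hm hf A' hfg hgr' _ _ hv

/-- transport of `Good` -/
theorem good_equiv (s : ℕ) {B B₀ : Type u} [CommRing B] [CommRing B₀] (e : B ≃+* B₀)
    (h : Good s B₀) : Good s B := by
  classical
  intro S
  obtain ⟨C, hC, hN, hd, hr⟩ := h (S.image e)
  let f : C ≃+* C.map e.symm.toRingHom := e.symm.subringMap (s := C)
  refine ⟨C.map e.symm.toRingHom, ?_, ?_, ?_, ?_⟩
  · intro x hx
    exact ⟨e x, hC _ (Finset.mem_image_of_mem _ hx), e.symm_apply_apply x⟩
  · haveI := hN
    exact isNoetherianRing_of_ringEquiv C f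
  · rw [← ringKrullDim_eq_of_ringEquiv f]
    exact hd
  · exact trans_equiv f s hr

end Pool.Agent.Helper75.FU
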