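import Pool.Agent.Helper75.FU.StK
import Pool.Agent.Helper15.FU.M_M5

/-!
# Project FU, module K5: the interior step over more general rings (after helper15's M5)
-/

set_option autoImplicit false

namespace Pool.Agent.Helper75.FU

open Pool.Agent.Helper15.FU Pool.Agent.Helper91.GU

universe u

theorem hK5 (hB7 : StB7.{u}) (hG5 : StG5.{u}) (hN4 : StN4.{u}) (hL5 : StL5)
    (hM2 : StM2.{u}) (hM3 : StM3.{u}) : StK5.{u} := by
  intro p s k hp hs hsp R _ _ _ hR hdim N _ L hL D hD hgen v hv hfix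
  classical
  haveI : Fact p.Prime := ⟨hp⟩
  have h3 : ∀ i : Fin k, ∃ π : AddMonoidAlgebra R N →+* AddMonoidAlgebra R N,
      ∀ (f : AddMonoidAlgebra R N) (m : N), (π f).coeff m = if L m i = 0 then f.coeff m else 0 := by
    intro i
    obtain ⟨π, hπ⟩ := hM3 R N ((Pi.evalAddMonoidHom (fun _ : Fin k => ℕ) i).comp L)
    exact ⟨π, hπ⟩
  choose π hπ using h3
  have hπv : ∀ i l, π i (v l) =
      row (1 : AddMonoidAlgebra R N) (0 : Fin (s + 1) → AddMonoidAlgebra R N) l := by
    intro i l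
    ext m
    rw [hπ]
    split_ifs with h
    · exact hfix i m h l
    · refine (row_coeff_ne l ?_).symm
      rintro rfl
      exact h (by simp)
  obtain ⟨w, hvw, hw⟩ := hM2 _ k (s + 1) π v hv hπv
  -- positivity of the exponents
  have key : ∀ f : AddMonoidAlgebra R N, (∀ i, ∃ l : Unit ⊕ Fin (s + 1), π i f =
      row (1 : AddMonoidAlgebra R N) (0 : Fin (s + 1) → AddMonoidAlgebra R N) l) →
      ∀ m ∈ f.coeff.support, m ≠ 0 → ∀ i, 0 < L m i := by
    intro f hf m hm hm0 i
    rw [Nat.pos_iff_ne_zero]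
    intro hi
    obtain ⟨l, hl⟩ := hf i
    have h1 := congrArg (fun g : AddMonoidAlgebra R N => g.coeff m) hl
    simp only [hπ, if_pos hi] at h1
    rw [row_coeff_ne l hm0] at h1
    exact (Finsupp.mem_support_iff.1 hm) h1
  let S : Finset N := Finset.univ.biUnion fun l : Unit ⊕ Fin (s + 1) =>
    (v l).coeff.support ∪ (w l).coeff.support
  have hS : ∀ m ∈ S, m ≠ 0 → ∀ i, 0 < L m i := by
    intro m hm hm0 i
    simp only [S, Finset.mem_biUnion, Finset.mem_univ, true_and, Finset.mem_union] at hm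
    obtain ⟨l, hl | hl⟩ := hm
    · exact key (v l) (fun i => ⟨l, hπv i l⟩) m hl hm0 i
    · exact key (w l) (fun i => ⟨l, hw i l⟩) m hl hm0 i
  obtain ⟨e₁, F, hF, hinj, hK⟩ := hL5 k (AddMonoidHom.mrange L) D hD
    (fun i => by obtain ⟨g, hg⟩ := hgen i; exact ⟨g, hg⟩)
    ((S.filter (· ≠ 0)).image L) (by
      intro x hx
      obtain ⟨m, hm, rfl⟩ := Finset.mem_image.1 hx
      obtain ⟨hmS, hm0⟩ := Finset.mem_filter.1 hm
      exact ⟨⟨m, rfl⟩, hS m hmS hm0⟩) p hp.two_le
  choose G hG using hF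
  have hLpsi : ∀ a : Fin k →₀ ℕ, L (psi G a) = ∑ j, a j • F j := by
    intro a
    rw [psi_apply, map_sum]
    refine Finset.sum_congr rfl fun j _ => ?_
    rw [map_nsmul, hG]
  have hψ : Function.Injective (psi G) := by
    intro a b hab
    have h := congrArg L hab
    rw [hLpsi, hLpsi] at h
    exact DFunLike.coe_injective (hinj h)
  obtain ⟨e, he, hve⟩ := hG5 (AddMonoidAlgebra R N) p s hp hsp hs v hv e₁
  have hexp : ∀ m ∈ S, ∃ a : Fin k →₀ ℕ, p ^ e • m = psi G a := by
    intro m hm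
    by_cases hm0 : m = 0
    · exact ⟨0, by simp [hm0]⟩
    · obtain ⟨a, ha⟩ := hK (L m) (Finset.mem_image_of_mem _ (Finset.mem_filter.2 ⟨hm, hm0⟩))
      have h1 : p ^ e₁ • m = psi G (Finsupp.equivFunOnFinite.symm a) := by
        apply hL
        rw [map_nsmul, ha, hLpsi]
        rfl
      refine ⟨p ^ (e - e₁) • Finsupp.equivFunOnFinite.symm a, ?_⟩
      rw [map_nsmul, ← h1, ← mul_smul, ← pow_add, Nat.sub_add_cancel he]
  have hV : ∀ l, ∃ V : MvPolynomial (Fin k) R,
      AddMonoidAlgebra.mapDomainRingHom R (psi G) V = v l ^ p ^ e := by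
    intro l
    refine pow_mem hp G e (v l) fun m hm => hexp m ?_
    exact Finset.mem_biUnion.2 ⟨l, Finset.mem_univ _, Finset.mem_union_left _ hm⟩
  have hW : ∀ l, ∃ V : MvPolynomial (Fin k) R,
      AddMonoidAlgebra.mapDomainRingHom R (psi G) V = w l ^ p ^ e := by
    intro l
    refine pow_mem hp G e (w l) fun m hm => hexp m ?_
    exact Finset.mem_biUnion.2 ⟨l, Finset.mem_univ _, Finset.mem_union_right _ hm⟩
  choose V hV using hV
  choose W hW using hW
  haveI : CharP (AddMonoidAlgebra R N) p := by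
    refine charP_of_injective_algebraMap (R := R) (A := AddMonoidAlgebra R N) ?_ p
    intro x y hxy
    have h := congrArg (fun g : AddMonoidAlgebra R N => g.coeff 0) hxy
    simpa using h
  have hη : Function.Injective (AddMonoidAlgebra.mapDomainRingHom R (psi G)) :=
    AddMonoidAlgebra.mapDomain_injective hψ
  have hUV : Um V := by
    refine ⟨W, hη ?_⟩
    rw [map_one, dotProduct, map_sum]
    have h1 : ∀ l, AddMonoidAlgebra.mapDomainRingHom R (psi G) (V l * W l) =
        (v l * w l) ^ p ^ e := by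
      intro l
      rw [map_mul, hV, hW, mul_pow]
    rw [Finset.sum_congr rfl fun l _ => h1 l, ← sum_pow_char_pow]
    have h2 : ∑ l, v l * w l = 1 := hvw
    rw [h2, one_pow]
  have hfac : IsUnit ((s + 1).factorial : R) := by
    rw [CharP.isUnit_natCast_iff hp, Nat.Prime.dvd_factorial hp]
    omega
  have hVc := hN4 s k hs R hdim hfac V hUV
  have huc : Um (mp (MvPolynomial.constantCoeff : MvPolynomial (Fin k) R →+* R) V) :=
    ((hB7 (MvPolynomial (Fin k) R) R MvPolynomial.constantCoeff).1 (Unit ⊕ Fin (s + 1))).2.2.2.2.2.2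
      V hUV
  have huc2 : REq (mp (MvPolynomial.constantCoeff : MvPolynomial (Fin k) R →+* R) V)
      (row 1 0) := by
    exact hR _ huc
  have hmp : ∀ (A B : Type u) [CommRing A] [CommRing B] (φ : A →+* B),
      mp φ (row (1 : A) (0 : Fin (s + 1) → A)) = row (1 : B) (0 : Fin (s + 1) → B) := by
    intro A B _ _ φ
    funext l
    rcases l with l | l
    · exact map_one φ
    · exact map_zero φ
  have hC := ((hB7 R (MvPolynomial (Fin k) R) MvPolynomial.C).1
    (Unit ⊕ Fin (s + 1))).2.2.2.2.2.1 _ _ huc2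
  rw [hmp] at hC
  have hVrow : REq V (row 1 0) :=
    ((hB7 (MvPolynomial (Fin k) R) R MvPolynomial.constantCoeff).1
      (Unit ⊕ Fin (s + 1))).2.2.1 _ _ _ hVc hC
  have h5 := ((hB7 (MvPolynomial (Fin k) R) (AddMonoidAlgebra R N)
    (AddMonoidAlgebra.mapDomainRingHom R (psi G))).1 (Unit ⊕ Fin (s + 1))).2.2.2.2.2.1 _ _ hVrow
  rw [hmp] at h5
  have h6 : mp (AddMonoidAlgebra.mapDomainRingHom R (psi G)) V = fun l => v l ^ p ^ e :=
    funext hV
  rw [h6] at h5
  exact ((hB7 (AddMonoidAlgebra R N) (AddMonoidAlgebra R N)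
    (RingHom.id _)).1 (Unit ⊕ Fin (s + 1))).2.2.1 _ _ _ hve h5

end Pool.Agent.Helper75.FU
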