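import Pool.Agent.Helper28.FU.M_G0
import Pool.Agent.Helper12.FU.M_G1
import Pool.Agent.Helper40.FU.M_G2
import Pool.Agent.Helper26.FU.M_G3
import Pool.Agent.Helper36.FU.M_G4
import Pool.Agent.Helper6.FU.M_G5
import Pool.Agent.Helper84.FU.M_P1
import Pool.Agent.Helper62.FU.M_P2
import Pool.Agent.Helper60.FU.M_P3
import Pool.Agent.Helper8.FU.M_P4
import Pool.Agent.Helper91.FU.M_P5
import Pool.Agent.Helper91.FU.M_P6
import Pool.Agent.Helper3.FU.M_N1
import Pool.Agent.Helper68.FU.M_N2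
import Pool.Agent.Helper6.FU.M_N3
import Pool.Agent.Helper29.FU.M_N4
import Pool.Agent.Helper83.FU.M_L1
import Pool.Agent.Helper83.FU.M_L2
import Pool.Agent.Helper8.FU.M_L3
import Pool.Agent.Helper28.FU.M_L4
import Pool.Agent.Helper47.FU.M_L5
import Pool.Agent.Helper64.FU.M_M1
import Pool.Agent.Helper36.FU.M_M2
import Pool.Agent.Helper26.FU.M_M3
import Pool.Agent.Helper42.FU.M_M4
import Pool.Agent.Helper75.FU.M_K5
import Pool.Agent.Helper75.FU.M_K6
import Pool.Agent.Helper75.FU.M_K7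
import Pool.Agent.Helper75.FU.Fin

/-!
# Project FU: assembly
-/

set_option autoImplicit false

namespace Pool.Agent.Helper75.FU

open Pool.Agent.Helper91.GU

universe u

theorem aG0 : StG0.{u} := Pool.Agent.Helper28.FU.hG0.{u} aC5.{u}
theorem aG1 : StG1.{u} := Pool.Agent.Helper12.FU.hG1.{u} aB0.{u} aB3.{u} aG0.{u}
theorem aG2 : StG2.{u} := Pool.Agent.Helper40.FU.hG2.{u} aA4.{u} aB0.{u} aB3.{u}
theorem aG3 : StG3.{u} := Pool.Agent.Helper26.FU.hG3.{u} aA0.{u} aB7.{u} aG1.{u} aG2.{u}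
theorem aG4 : StG4.{u} := Pool.Agent.Helper36.FU.hG4.{u} aB7.{u} aG3.{u}
theorem aG5 : StG5.{u} := Pool.Agent.Helper6.FU.hG5.{u} aG4.{u}
theorem aP1 : StP1.{u} := Pool.Agent.Helper84.FU.hP1.{u}
theorem aP2 : StP2.{u} := Pool.Agent.Helper62.FU.hP2.{u} aP1.{u}
theorem aP3 : StP3.{u} := Pool.Agent.Helper60.FU.hP3.{u} aP1.{u} aP2.{u}
theorem aP4 : StP4.{u} := Pool.Agent.Helper8.FU.hP4.{u} aP1.{u} aP3.{u}
theorem aP5 : StP5.{u} := Pool.Agent.Helper91.FU.hP5.{u}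
theorem aP6 : StP6.{u} := Pool.Agent.Helper91.FU.hP6.{u} aB0.{u} aB7.{u} aS0.{u} aH4.{u} aP4.{u}
  aP5.{u}
theorem aP7 : StP7.{u} := Pool.Agent.Helper91.FU.hP7.{u} aA5.{u} aB7.{u} aH4.{u} aP6.{u}
theorem aN1 : StN1.{u} := Pool.Agent.Helper3.FU.hN1.{u}
theorem aN2 : StN2.{u} := Pool.Agent.Helper68.FU.hN2.{u} aS.{u} aB7.{u} aH4.{u} aP7.{u} aN1.{u}
theorem aN3 : StN3.{u} := Pool.Agent.Helper6.FU.hN3.{u} aA5.{u} aB7.{u} aH4.{u}
theorem aN4 : StN4.{u} := Pool.Agent.Helper29.FU.hN4.{u} aB7.{u} aN2.{u} aN3.{u}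
theorem aL5 : StL5 := Pool.Agent.Helper47.FU.hL5 Pool.Agent.Helper83.FU.hL1
  Pool.Agent.Helper83.FU.hL2 Pool.Agent.Helper8.FU.hL3 Pool.Agent.Helper28.FU.hL4
theorem aM1 : StM1.{u} := Pool.Agent.Helper64.FU.hM1.{u}
theorem aM2 : StM2.{u} := Pool.Agent.Helper36.FU.hM2.{u}
theorem aM3 : StM3.{u} := Pool.Agent.Helper26.FU.hM3.{u}
theorem aM4 : StM4.{u} := Pool.Agent.Helper42.FU.hM4.{u}
theorem aK5 : StK5.{u} := hK5.{u} aB7.{u} aG5.{u} aN4.{u} aL5 aM2.{u} aM3.{u}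
theorem aK6 : StK6.{u} := hK6.{u} aB7.{u} aM1.{u} aM3.{u} aM4.{u} aK5.{u}
theorem aK7 : StK7.{u} := hK7.{u} aB7.{u} aG5.{u} aK6.{u}

/-- the final theorem, `r = s + 1` -/
theorem final (p s d m n : ℕ) (hp : p.Prime) (hs : 1 ≤ s) (hsp : s + 1 < p) (hdm : d + m ≤ 2 * s)
    (R : Type u) [CommRing R] [IsLocalRing R] [IsNoetherianRing R] [CharP R p]
    (hd : ringKrullDim R ≤ d) (B₀ : Subalgebra R (MvPolynomial (Fin m) R))
    (hB₀ : ∀ f ∈ B₀, ∀ i : ℕ, MvPolynomial.homogeneousComponent i f ∈ B₀)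
    (B : Type u) [CommRing B] (e : B ≃+* B₀)
    (A : Subalgebra B (MvPolynomial (Fin n) B)) (hA : PMono p A) (hA' : Simpl A) :
    {v : Fin (s + 2) → A | Ideal.span (Set.range v) = ⊤} =
      Set.range (fun M : Matrix.SpecialLinearGroup (Fin (s + 2)) A =>
        (M : Matrix (Fin (s + 2)) (Fin (s + 2)) A) 0) := by
  have hf : IsUnit ((s + 1).factorial : R) := by
    rw [CharP.isUnit_natCast_iff hp, Nat.Prime.dvd_factorial hp]
    omega
  have hg : Good s B := good_equiv s e (good_graded R d m s hs hd hdm hf B₀ hB₀)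
  haveI : CharP B₀ p := by
    have hinj : Function.Injective (algebraMap R B₀) := by
      intro x y hxy
      have h1 : (algebraMap R (MvPolynomial (Fin m) R)) x =
          algebraMap R (MvPolynomial (Fin m) R) y := congrArg Subtype.val hxy
      exact MvPolynomial.C_injective (Fin m) R h1
    exact (RingHom.charP_iff (algebraMap R B₀) hinj p).1 inferInstance
  haveI : CharP B p := (RingHom.charP_iff (e : B →+* B₀) e.injective p).2 inferInstance
  exact setForm A s fun v hv => aK7.{u} p s n hp hs hsp B hg A hA hA' v hv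

end Pool.Agent.Helper75.FU
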