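import Pool.Agent.Helper75.FU.StM
import Pool.Agent.Helper78.FU.M_M7

/-!
# Project FU: classes of subalgebras with `PMono` and `Simpl`

* `simpl_of_powers`: a power of every variable lies in `A`; then `Simpl A`.
* `simpl_two`: at most two variables; then `Simpl A`.
* `simpl_cone`: all monomials of `A` lie in the cone of linearly independent monomials of `A`; then `Simpl A`.
* `pmono_of_mono`: `A` is spanned by monomials; then `PMono p A`.
* `pmono_of_frob`: characteristic `p`, a power `X_i^(p^e)` of every variable lies in `A`; then `PMono p A`.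
-/

set_option autoImplicit false

namespace Pool.Agent.Helper75.FU

open MvPolynomial

universe u

variable {B : Type u} [CommRing B] {n : ℕ}

theorem pmono_of_mono (p : ℕ) (A : Subalgebra B (MvPolynomial (Fin n) B))
    (h : ∀ f ∈ A, ∀ μ ∈ f.support, monomial μ (1 : B) ∈ A) : PMono p A := by
  intro a ha
  refine ⟨0, ?_⟩
  rw [pow_zero, pow_one]
  exact h a ha

theorem pmono_of_frob (p : ℕ) (hp : p.Prime) [CharP B p]
    (A : Subalgebra B (MvPolynomial (Fin n) B))
    (h : ∀ i : Fin n, ∃ e : ℕ, (X i : MvPolynomial (Fin n) B) ^ p ^ e ∈ A) : PMono p A := by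
  classical
  haveI : Fact p.Prime := ⟨hp⟩
  choose e he using h
  intro a _
  set E : ℕ := ∑ i, e i with hE
  refine ⟨E, ?_⟩
  have h1 : ∀ i, (X i : MvPolynomial (Fin n) B) ^ p ^ E ∈ A := by
    intro i
    have h2 : e i ≤ E := Finset.single_le_sum (fun j _ => Nat.zero_le _) (Finset.mem_univ i)
    obtain ⟨k, hk⟩ := Nat.exists_eq_add_of_le h2
    rw [hk, pow_add, pow_mul]
    exact A.pow_mem (he i) _
  have h3 : ∀ μ : Fin n →₀ ℕ, monomial (p ^ E • μ) (1 : B) ∈ A := by
    intro μ
    have h4 : monomial (p ^ E • μ) (1 : B) = ∏ i, ((X i : MvPolynomial (Fin n) B) ^ p ^ E) ^ μ i := by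
      rw [monomial_eq, map_one, one_mul, Finsupp.prod_fintype]
      · refine Finset.prod_congr rfl fun i _ => ?_
        rw [← pow_mul, Finsupp.smul_apply, smul_eq_mul]
      · intro i
        exact pow_zero _
    rw [h4]
    exact A.prod_mem fun i _ => A.pow_mem (h1 i) _
  have h5 : a ^ p ^ E = ∑ μ ∈ a.support, monomial (p ^ E • μ) (coeff μ a ^ p ^ E) := by
    conv_lhs => rw [← support_sum_monomial_coeff a]
    rw [sum_pow_char_pow]
    refine Finset.sum_congr rfl fun μ _ => ?_
    rw [monomial_pow]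
  intro μ hμ
  rw [h5] at hμ
  have h6 := support_sum hμ
  rw [Finset.mem_biUnion] at h6
  obtain ⟨ν, -, hν⟩ := h6
  have h7 := support_monomial_subset hν
  rw [Finset.mem_singleton] at h7
  rw [h7]
  exact h3 ν

theorem simpl_cone (A : Subalgebra B (MvPolynomial (Fin n) B)) (k : ℕ)
    (g : Fin k → (Fin n →₀ ℕ)) (hg : ∀ i, monomial (g i) (1 : B) ∈ A)
    (hlin : LinearIndependent ℚ (fun (i : Fin k) (j : Fin n) => ((g i j : ℕ) : ℚ)))
    (h : ∀ μ : Fin n →₀ ℕ, monomial μ (1 : B) ∈ A → ∃ c : ℕ, 1 ≤ c ∧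
      c • μ ∈ AddSubmonoid.closure (Set.range g)) : Simpl A :=
  fun _ hK => ⟨k, g, hg, hlin, fun μ hμ => h μ (hK μ hμ)⟩

theorem simpl_of_powers (A : Subalgebra B (MvPolynomial (Fin n) B))
    (h : ∀ i : Fin n, ∃ D : ℕ, 1 ≤ D ∧ (X i : MvPolynomial (Fin n) B) ^ D ∈ A) : Simpl A := by
  classical
  choose D hD hDA using h
  refine simpl_cone A n (fun i => Finsupp.single i (D i)) ?_ ?_ ?_
  · intro i
    have := hDA i
    rwa [X_pow_eq_monomial] at this
  · rw [Fintype.linearIndependent_iff]
    intro z hz i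
    have h1 := congrFun hz i
    simp only [Finset.sum_apply, Pi.smul_apply, smul_eq_mul, Pi.zero_apply] at h1
    rw [Finset.sum_eq_single i] at h1
    · rw [Finsupp.single_eq_same] at h1
      have h2 : ((D i : ℕ) : ℚ) ≠ 0 := by
        have := hD i
        positivity
      rcases mul_eq_zero.1 h1 with h3 | h3
      · exact h3
      · exact absurd h3 h2
    · intro j _ hj
      rw [Finsupp.single_apply, if_neg hj]
      simp
    · intro hi
      exact absurd (Finset.mem_univ i) hi
  · intro μ _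
    refine ⟨∏ i, D i, (Finset.prod_pos fun i _ => hD i : 0 < ∏ i, D i), ?_⟩
    have h1 : (∏ i, D i) • μ = ∑ i, ((∏ j ∈ Finset.univ.erase i, D j) * μ i) •
        (Finsupp.single i (D i) : Fin n →₀ ℕ) := by
      ext j
      rw [Finsupp.smul_apply, smul_eq_mul, Finsupp.finset_sum_apply, Finset.sum_eq_single j]
      · rw [Finsupp.smul_apply, Finsupp.single_eq_same, smul_eq_mul,
          ← Finset.prod_erase_mul _ _ (Finset.mem_univ j)]
        ring
      · intro i _ hi
        rw [Finsupp.smul_apply, Finsupp.single_apply, if_neg hi, smul_zero]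
      · intro hi
        exact absurd (Finset.mem_univ j) hi
    rw [h1]
    exact AddSubmonoid.sum_mem _ fun i _ => AddSubmonoid.nsmul_mem _
      (AddSubmonoid.subset_closure (Set.mem_range_self
        (f := fun i : Fin n => (Finsupp.single i (D i) : Fin n →₀ ℕ)) i)) _

/-- all monomials zero -/
theorem simpl_aux0 (A : Subalgebra B (MvPolynomial (Fin n) B)) (K : Finset (Fin n →₀ ℕ))
    (h : ∀ m ∈ K, m = 0) : ∃ (k : ℕ) (g : Fin k → (Fin n →₀ ℕ)),
      (∀ i, MvPolynomial.monomial (g i) (1 : B) ∈ A) ∧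
      LinearIndependent ℚ (fun (i : Fin k) (j : Fin n) => ((g i j : ℕ) : ℚ)) ∧
      ∀ m ∈ K, ∃ c : ℕ, 1 ≤ c ∧ c • m ∈ AddSubmonoid.closure (Set.range g) := by
  refine ⟨0, fun i => i.elim0, fun i => i.elim0, linearIndependent_empty_type, ?_⟩
  intro m hm
  refine ⟨1, le_rfl, ?_⟩
  rw [h m hm, smul_zero]
  exact AddSubmonoid.zero_mem _

/-- all monomials on one ray -/
theorem simpl_aux1 (A : Subalgebra B (MvPolynomial (Fin n) B)) (K : Finset (Fin n →₀ ℕ))
    (u : Fin n →₀ ℕ) (hu : u ≠ 0) (huA : MvPolynomial.monomial u (1 : B) ∈ A)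
    (h : ∀ m ∈ K, ∃ a b : ℕ, 1 ≤ a ∧ a • m = b • u) : ∃ (k : ℕ) (g : Fin k → (Fin n →₀ ℕ)),
      (∀ i, MvPolynomial.monomial (g i) (1 : B) ∈ A) ∧
      LinearIndependent ℚ (fun (i : Fin k) (j : Fin n) => ((g i j : ℕ) : ℚ)) ∧
      ∀ m ∈ K, ∃ c : ℕ, 1 ≤ c ∧ c • m ∈ AddSubmonoid.closure (Set.range g) := by
  refine ⟨1, fun _ => u, fun _ => huA, ?_, ?_⟩
  · obtain ⟨j, hj⟩ : ∃ j, u j ≠ 0 := by
      by_contra hcon
      push Not at hcon
      exact hu (Finsupp.ext hcon)
    rw [Fintype.linearIndependent_iff]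
    intro z hz i
    have h1 := congrFun hz j
    simp only [Finset.sum_apply, Pi.smul_apply, smul_eq_mul, Pi.zero_apply,
      Finset.univ_unique, Finset.sum_singleton] at h1
    rcases mul_eq_zero.1 h1 with h2 | h2
    · rw [Subsingleton.elim i default]
      exact h2
    · exact absurd (by exact_mod_cast h2) hj
  · intro m hm
    obtain ⟨a, b, ha, hab⟩ := h m hm
    refine ⟨a, ha, ?_⟩
    rw [hab]
    exact AddSubmonoid.nsmul_mem _ (AddSubmonoid.subset_closure
      (show u ∈ Set.range (fun _ : Fin 1 => u) from ⟨0, rfl⟩)) _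

theorem simpl_one (A : Subalgebra B (MvPolynomial (Fin 1) B)) : Simpl A := by
  classical
  intro K hK
  by_cases h0 : ∀ m ∈ K, m = 0
  · exact simpl_aux0 A K h0
  · push Not at h0
    obtain ⟨u, huK, hu⟩ := h0
    refine simpl_aux1 A K u hu (hK u huK) ?_
    intro m _
    have hu0 : u 0 ≠ 0 := by
      intro h
      apply hu
      refine Finsupp.ext fun j => ?_
      rw [Subsingleton.elim j 0, h]
      rfl
    refine ⟨u 0, m 0, Nat.one_le_iff_ne_zero.2 hu0, ?_⟩
    refine Finsupp.ext fun j => ?_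
    rw [Subsingleton.elim j 0]
    simp only [Finsupp.smul_apply, smul_eq_mul]
    ring

theorem simpl_twoVar (A : Subalgebra B (MvPolynomial (Fin 2) B)) : Simpl A := by
  classical
  intro K hK
  by_cases h0 : ∀ m ∈ K, m = 0
  · exact simpl_aux0 A K h0
  · push Not at h0
    obtain ⟨w, hwK, hw⟩ := h0
    set K' : Finset (Fin 2 →₀ ℕ) := K.filter (fun m => m ≠ 0) with hK'
    have hne : K'.Nonempty := ⟨w, Finset.mem_filter.2 ⟨hwK, hw⟩⟩
    have hpos : ∀ m ∈ K', 0 < m 0 + m 1 := by
      intro m hm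
      have hm0 := (Finset.mem_filter.1 hm).2
      by_contra hcon
      apply hm0
      ext j
      fin_cases j
      · show m 0 = 0
        omega
      · show m 1 = 0
        omega
    obtain ⟨u, hu, humin⟩ := Finset.exists_min_image K'
      (fun m => ((m 1 : ℕ) : ℚ) / ((m 0 + m 1 : ℕ) : ℚ)) hne
    obtain ⟨v, hv, hvmax⟩ := Finset.exists_max_image K'
      (fun m => ((m 1 : ℕ) : ℚ) / ((m 0 + m 1 : ℕ) : ℚ)) hne
    have cmp : ∀ x ∈ K', ∀ y ∈ K', ((x 1 : ℕ) : ℚ) / ((x 0 + x 1 : ℕ) : ℚ) ≤
        ((y 1 : ℕ) : ℚ) / ((y 0 + y 1 : ℕ) : ℚ) → x 1 * y 0 ≤ y 1 * x 0 := by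
      intro x hx y hy hxy
      have hx0 : (0 : ℚ) < ((x 0 + x 1 : ℕ) : ℚ) := by exact_mod_cast hpos x hx
      have hy0 : (0 : ℚ) < ((y 0 + y 1 : ℕ) : ℚ) := by exact_mod_cast hpos y hy
      rw [div_le_div_iff₀ hx0 hy0] at hxy
      have h1 : x 1 * (y 0 + y 1) ≤ y 1 * (x 0 + x 1) := by exact_mod_cast hxy
      nlinarith
    have hum : ∀ m ∈ K', u 1 * m 0 ≤ m 1 * u 0 := fun m hm => cmp u hu m hm (humin m hm)
    have hvm : ∀ m ∈ K', m 1 * v 0 ≤ v 1 * m 0 := fun m hm => cmp m hm v hv (hvmax m hm)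
    have huK := (Finset.mem_filter.1 hu).1
    have hvK := (Finset.mem_filter.1 hv).1
    have hu0 := (Finset.mem_filter.1 hu).2
    rcases (hum v hv).eq_or_lt with heq | hlt
    · -- all on one ray
      refine simpl_aux1 A K u hu0 (hK u huK) ?_
      intro m hm
      by_cases hm0 : m = 0
      · exact ⟨1, 0, le_rfl, by rw [hm0]; simp⟩
      · have hm' : m ∈ K' := Finset.mem_filter.2 ⟨hm, hm0⟩
        have h1 := hum m hm'
        have h2 := hvm m hm'
        have hp1 := hpos u hu
        have hp2 := hpos v hv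
        have hpm := hpos m hm'
        -- det (u, m) = 0
        have h3 : m 1 * u 0 ≤ u 1 * m 0 := by
          -- m 1 * v 0 ≤ v 1 * m 0 and u 1 * v 0 = v 1 * u 0
          rcases Nat.eq_zero_or_pos (v 0) with hv0 | hv0
          · have hv1 : 0 < v 1 := by omega
            rw [hv0, mul_zero] at heq
            have hu0' : u 0 = 0 := by
              rcases Nat.mul_eq_zero.1 heq.symm with h | h
              · omega
              · exact h
            rw [hu0', mul_zero]
            exact Nat.zero_le _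
          · have h4 : (m 1 * u 0) * v 0 ≤ (u 1 * m 0) * v 0 := by
              calc (m 1 * u 0) * v 0 = (m 1 * v 0) * u 0 := by ring
                _ ≤ (v 1 * m 0) * u 0 := Nat.mul_le_mul_right _ h2
                _ = (v 1 * u 0) * m 0 := by ring
                _ = (u 1 * v 0) * m 0 := by rw [heq]
                _ = (u 1 * m 0) * v 0 := by ring
            exact Nat.le_of_mul_le_mul_right h4 hv0
        have h5 : u 1 * m 0 = m 1 * u 0 := le_antisymm h1 h3
        refine ⟨u 0 + u 1, m 0 + m 1, hp1, ?_⟩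
        ext j
        fin_cases j
        · show ((u 0 + u 1) • m) 0 = ((m 0 + m 1) • u) 0
          simp only [Finsupp.smul_apply, smul_eq_mul]
          nlinarith
        · show ((u 0 + u 1) • m) 1 = ((m 0 + m 1) • u) 1
          simp only [Finsupp.smul_apply, smul_eq_mul]
          nlinarith
    · -- two rays
      refine ⟨2, ![u, v], ?_, ?_, ?_⟩
      · intro i
        fin_cases i
        · exact hK u huK
        · exact hK v hvK
      · rw [Fintype.linearIndependent_iff]
        intro z hz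
        have e0 := congrFun hz 0
        have e1 := congrFun hz 1
        simp only [Finset.sum_apply, Pi.smul_apply, smul_eq_mul, Pi.zero_apply, Fin.sum_univ_two,
          Matrix.cons_val_zero, Matrix.cons_val_one] at e0 e1
        have hdet : ((v 1 : ℕ) : ℚ) * (u 0 : ℕ) - (u 1 : ℕ) * (v 0 : ℕ) ≠ 0 := by
          have h1 : ((u 1 * v 0 : ℕ) : ℚ) < ((v 1 * u 0 : ℕ) : ℚ) := by exact_mod_cast hlt
          push_cast at h1
          intro h2
          linarith
        have z0 : z 0 * (((v 1 : ℕ) : ℚ) * (u 0 : ℕ) - (u 1 : ℕ) * (v 0 : ℕ)) = 0 := by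
          linear_combination (v 1 : ℚ) * e0 - (v 0 : ℚ) * e1
        have z1 : z 1 * (((v 1 : ℕ) : ℚ) * (u 0 : ℕ) - (u 1 : ℕ) * (v 0 : ℕ)) = 0 := by
          linear_combination (u 0 : ℚ) * e1 - (u 1 : ℚ) * e0
        intro i
        fin_cases i
        · exact (mul_eq_zero.1 z0).resolve_right hdet
        · exact (mul_eq_zero.1 z1).resolve_right hdet
      · intro m hm
        have hum' : u 1 * m 0 ≤ m 1 * u 0 := by
          by_cases hm0 : m = 0
          · rw [hm0]; simp
          · exact hum m (Finset.mem_filter.2 ⟨hm, hm0⟩)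
        have hvm' : m 1 * v 0 ≤ v 1 * m 0 := by
          by_cases hm0 : m = 0
          · rw [hm0]; simp
          · exact hvm m (Finset.mem_filter.2 ⟨hm, hm0⟩)
        obtain ⟨α, hα⟩ := Nat.exists_eq_add_of_le hum'
        obtain ⟨β, hβ⟩ := Nat.exists_eq_add_of_le hvm'
        obtain ⟨δ, hδ⟩ := Nat.exists_eq_add_of_le hlt.le
        have hδ0 : 1 ≤ δ := by omega
        refine ⟨δ, hδ0, ?_⟩
        have key : δ • m = β • u + α • v := by
          have hα' : (m 1 : ℤ) * u 0 = u 1 * m 0 + α := by exact_mod_cast hα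
          have hβ' : (v 1 : ℤ) * m 0 = m 1 * v 0 + β := by exact_mod_cast hβ
          have hδ' : (v 1 : ℤ) * u 0 = u 1 * v 0 + δ := by exact_mod_cast hδ
          ext j
          fin_cases j
          · show (δ • m) 0 = (β • u + α • v) 0
            simp only [Finsupp.smul_apply, smul_eq_mul, Finsupp.add_apply]
            have : (δ : ℤ) * m 0 = β * u 0 + α * v 0 := by
              linear_combination (u 0 : ℤ) * hβ' - (m 0 : ℤ) * hδ' + (v 0 : ℤ) * hα'
            exact_mod_cast this
          · show (δ • m) 1 = (β • u + α • v) 1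
            simp only [Finsupp.smul_apply, smul_eq_mul, Finsupp.add_apply]
            have : (δ : ℤ) * m 1 = β * u 1 + α * v 1 := by
              linear_combination (u 1 : ℤ) * hβ' - (m 1 : ℤ) * hδ' + (v 1 : ℤ) * hα'
            exact_mod_cast this
        rw [key]
        have m0 : u ∈ Set.range ![u, v] := ⟨0, rfl⟩
        have m1 : v ∈ Set.range ![u, v] := ⟨1, rfl⟩
        exact AddSubmonoid.add_mem _
          (AddSubmonoid.nsmul_mem _ (AddSubmonoid.subset_closure m0) _)
          (AddSubmonoid.nsmul_mem _ (AddSubmonoid.subset_closure m1) _)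

theorem simpl_two (hn : n ≤ 2) (A : Subalgebra B (MvPolynomial (Fin n) B)) : Simpl A := by
  rcases n with _ | _ | _ | n
  · intro K _
    exact simpl_aux0 A K fun m _ => Subsingleton.elim _ _
  · exact simpl_one A
  · exact simpl_twoVar A
  · omega

end Pool.Agent.Helper75.FU
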