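import Pool.Agent.Helper75.FU.StK
import Pool.Agent.Helper78.FU.M_M7

/-!
# Project FU, module K7 (after helper78's module M7)
-/

set_option autoImplicit false

namespace Pool.Agent.Helper75.FU

open Pool.Agent.Helper91.GU Pool.Agent.Helper78.FU

universe u

theorem hK7 (hB7 : Pool.Agent.Helper91.GU.StB7.{u}) (hG5 : StG5.{u}) (hK6 : StK6.{u}) :
    StK7.{u} := by
  classical
  intro p s n hp hs hsp R _ _ hgood A hPM hSi v hv
  have : Fact p.Prime := ⟨hp⟩
  obtain ⟨w, hvw⟩ := hv
  -- the exponent e₀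
  have hex : ∀ a : A, ∃ e : ℕ, PM A ((a : MvPolynomial (Fin n) R) ^ p ^ e) := fun a =>
    hPM a a.2
  choose ex hexp using hex
  obtain ⟨e0, he0⟩ : ∃ e0 : ℕ, ∀ l, ex (v l) ≤ e0 ∧ ex (w l) ≤ e0 := by
    refine ⟨Finset.univ.sup (fun l => max (ex (v l)) (ex (w l))), fun l => ?_⟩
    have h := Finset.le_sup (f := fun l => max (ex (v l)) (ex (w l))) (Finset.mem_univ l)
    exact ⟨le_trans (le_max_left _ _) h, le_trans (le_max_right _ _) h⟩
  obtain ⟨e, hee, hvq⟩ := hG5 A p s hp hsp hs v ⟨w, hvw⟩ e0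
  set q := p ^ e with hq
  have hpv : ∀ l, PM A ((v l : MvPolynomial (Fin n) R) ^ q) := fun l =>
    pm_pow_le (hexp (v l)) (le_trans (he0 l).1 hee)
  have hpw : ∀ l, PM A ((w l : MvPolynomial (Fin n) R) ^ q) := fun l =>
    pm_pow_le (hexp (w l)) (le_trans (he0 l).2 hee)
  -- the product of the powers
  have hprod : ∑ l, (v l : MvPolynomial (Fin n) R) ^ q * (w l : MvPolynomial (Fin n) R) ^ q = 1 := by
    have h1 : ∑ l, (v l : MvPolynomial (Fin n) R) * (w l : MvPolynomial (Fin n) R) = 1 := by
      have h2 := congrArg (fun x : A => (x : MvPolynomial (Fin n) R)) hvw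
      simpa [dotProduct] using h2
    have h3 : (∑ l, (v l : MvPolynomial (Fin n) R) * (w l : MvPolynomial (Fin n) R)) ^ q
        = 1 ^ q := by rw [h1]
    rw [hq, sum_pow_char_pow, one_pow] at h3
    rw [← h3]
    apply Finset.sum_congr rfl
    intro l _
    rw [mul_pow]
  -- the finite set of exponents and the simplicial cone
  set K : Finset (Fin n →₀ ℕ) := Finset.univ.biUnion (fun l : Unit ⊕ Fin (s + 1) =>
    ((v l : MvPolynomial (Fin n) R) ^ q).support ∪ ((w l : MvPolynomial (Fin n) R) ^ q).support)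
    with hK
  have hKA : ∀ m ∈ K, MvPolynomial.monomial m (1 : R) ∈ A := by
    intro m hm
    rw [hK, Finset.mem_biUnion] at hm
    obtain ⟨l, -, hl⟩ := hm
    rw [Finset.mem_union] at hl
    rcases hl with hl | hl
    · exact hpv l m hl
    · exact hpw l m hl
  have hKv : ∀ l, ∀ m ∈ ((v l : MvPolynomial (Fin n) R) ^ q).support, m ∈ K := by
    intro l m hm
    rw [hK, Finset.mem_biUnion]
    exact ⟨l, Finset.mem_univ _, Finset.mem_union_left _ hm⟩
  have hKw : ∀ l, ∀ m ∈ ((w l : MvPolynomial (Fin n) R) ^ q).support, m ∈ K := by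
    intro l m hm
    rw [hK, Finset.mem_biUnion]
    exact ⟨l, Finset.mem_univ _, Finset.mem_union_right _ hm⟩
  obtain ⟨k, g, hgA, hlin, hc⟩ := hSi K hKA
  choose! c hc1 hc2 using hc
  set D : ℕ := ∏ m ∈ K, c m with hD
  have hD0 : 0 < D := Finset.prod_pos fun m hm => hc1 m hm
  set N : AddSubmonoid (Fin n →₀ ℕ) :=
    AddSubmonoid.closure ((K : Set (Fin n →₀ ℕ)) ∪ Set.range g) with hN
  have hKN : ∀ m ∈ K, m ∈ N := fun m hm =>
    AddSubmonoid.subset_closure (Or.inl hm)
  have hgN : ∀ i, g i ∈ N := fun i => AddSubmonoid.subset_closure (Or.inr ⟨i, rfl⟩)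
  have hNA : ∀ m ∈ N, MvPolynomial.monomial m (1 : R) ∈ A := by
    intro m hm
    induction hm using AddSubmonoid.closure_induction with
    | mem x hx =>
      rcases hx with hx | ⟨i, rfl⟩
      · exact hKA x hx
      · exact hgA i
    | zero => exact A.one_mem
    | add x y _ _ ihx ihy =>
      have h2 := A.mul_mem ihx ihy
      rwa [MvPolynomial.monomial_mul, one_mul] at h2
  have hND : ∀ m ∈ N, D • m ∈ AddSubmonoid.closure (Set.range g) := by
    intro m hm
    induction hm using AddSubmonoid.closure_induction with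
    | mem x hx =>
      rcases hx with hx | ⟨i, rfl⟩
      · have h1 : D = (∏ m ∈ K.erase x, c m) * c x := by
          rw [hD, Finset.prod_erase_mul _ _ hx]
        rw [h1, mul_smul]
        exact AddSubmonoid.nsmul_mem _ (hc2 x hx) _
      · exact AddSubmonoid.nsmul_mem _ (AddSubmonoid.subset_closure (Set.mem_range_self i)) _
    | zero => rw [smul_zero]; exact AddSubmonoid.zero_mem _
    | add x y _ _ ihx ihy =>
      rw [smul_add]
      exact AddSubmonoid.add_mem _ ihx ihy
  have hNa : ∀ m : N, ∃ a : Fin k → ℕ, D • (m : Fin n →₀ ℕ) = ∑ i, a i • g i := fun m =>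
    clos_comb g _ (hND m m.2)
  choose a ha using hNa
  let L : N →+ (Fin k → ℕ) :=
    { toFun := a
      map_zero' := by
        apply comb_uniq g hlin
        rw [← ha]
        simp
      map_add' := by
        intro x y
        apply comb_uniq g hlin
        rw [← ha]
        simp only [Pi.add_apply, add_smul, Finset.sum_add_distrib]
        rw [← ha, ← ha, ← smul_add]
        rfl }
  have hLinj : Function.Injective L := by
    intro x y hxy
    have h1 : a x = a y := hxy
    have h2 : D • (x : Fin n →₀ ℕ) = D • (y : Fin n →₀ ℕ) := by rw [ha, ha, h1]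
    apply Subtype.ext
    ext j
    have h3 := DFunLike.congr_fun h2 j
    simp only [Finsupp.smul_apply, smul_eq_mul] at h3
    exact Nat.eq_of_mul_eq_mul_left hD0 h3
  have hLg : ∀ i, ∃ x : N, L x = Pi.single i D := by
    intro i
    refine ⟨⟨g i, hgN i⟩, ?_⟩
    show a ⟨g i, hgN i⟩ = Pi.single i D
    apply comb_uniq g hlin
    rw [← ha]
    rw [Finset.sum_eq_single i]
    · simp
    · intro j _ hj
      simp [hj]
    · simp
  -- the subring of the coefficients
  obtain ⟨C, hCS, hCN, hCd, hCr⟩ := hgood (Finset.univ.biUnion (fun l : Unit ⊕ Fin (s + 1) =>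
    ((v l : MvPolynomial (Fin n) R) ^ q).support.image
      (fun m => MvPolynomial.coeff m ((v l : MvPolynomial (Fin n) R) ^ q)) ∪
    ((w l : MvPolynomial (Fin n) R) ^ q).support.image
      (fun m => MvPolynomial.coeff m ((w l : MvPolynomial (Fin n) R) ^ q))))
  have hCv : ∀ l m, MvPolynomial.coeff m ((v l : MvPolynomial (Fin n) R) ^ q) ∈ C := by
    intro l m
    by_cases hm : m ∈ ((v l : MvPolynomial (Fin n) R) ^ q).support
    · refine hCS _ ?_
      rw [Finset.mem_biUnion]
      exact ⟨l, Finset.mem_univ _, Finset.mem_union_left _ (Finset.mem_image_of_mem _ hm)⟩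
    · rw [MvPolynomial.notMem_support_iff.1 hm]
      exact C.zero_mem
  have hCw : ∀ l m, MvPolynomial.coeff m ((w l : MvPolynomial (Fin n) R) ^ q) ∈ C := by
    intro l m
    by_cases hm : m ∈ ((w l : MvPolynomial (Fin n) R) ^ q).support
    · refine hCS _ ?_
      rw [Finset.mem_biUnion]
      exact ⟨l, Finset.mem_univ _, Finset.mem_union_right _ (Finset.mem_image_of_mem _ hm)⟩
    · rw [MvPolynomial.notMem_support_iff.1 hm]
      exact C.zero_mem
  haveI := hCN
  have hCinj : Function.Injective C.subtype := Subtype.val_injective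
  haveI : CharP C p := by
    exact (RingHom.charP_iff C.subtype hCinj p).2 inferInstance
  -- the monoid algebra
  have hinj : Function.Injective (N.subtype) := Subtype.val_injective
  let ι₁ : AddMonoidAlgebra C N →+* MvPolynomial (Fin n) C :=
    AddMonoidAlgebra.mapDomainRingHom C N.subtype
  have hι₁ : Function.Injective ι₁ := AddMonoidAlgebra.mapDomain_injective hinj
  let ι₀ : AddMonoidAlgebra C N →+* MvPolynomial (Fin n) R :=
    (MvPolynomial.map C.subtype).comp ι₁
  have hι₀ : Function.Injective ι₀ :=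
    (MvPolynomial.map_injective C.subtype hCinj).comp hι₁
  have hιA : ∀ x, ι₀ x ∈ A := by
    intro x
    induction x using AddMonoidAlgebra.induction_on with
    | of m =>
      have h1 : ι₁ (AddMonoidAlgebra.of C N (Multiplicative.ofAdd m))
          = MvPolynomial.monomial (m : Fin n →₀ ℕ) 1 := by
        simp [ι₁, MvPolynomial.monomial]
      have h2 : ι₀ (AddMonoidAlgebra.of C N (Multiplicative.ofAdd m))
          = MvPolynomial.monomial (m : Fin n →₀ ℕ) 1 := by
        show MvPolynomial.map C.subtype (ι₁ _) = _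
        rw [h1, MvPolynomial.map_monomial, map_one]
      rw [h2]
      exact hNA _ m.2
    | add x y hx hy => rw [map_add]; exact A.add_mem hx hy
    | smul r x hx =>
      have h1 : ι₁ (r • x) = r • ι₁ x := by
        rw [Algebra.smul_def, Algebra.smul_def, map_mul]
        congr 1
        simp [ι₁]
        rfl
      have h2 : ι₀ (r • x) = (r : R) • ι₀ x := by
        show MvPolynomial.map C.subtype (ι₁ (r • x)) = (r : R) • MvPolynomial.map C.subtype (ι₁ x)
        rw [h1, MvPolynomial.smul_eq_C_mul, map_mul, MvPolynomial.map_C,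
          ← MvPolynomial.smul_eq_C_mul]
        rfl
      rw [h2]
      exact A.smul_mem hx r
  let ι : AddMonoidAlgebra C N →+* A := ι₀.codRestrict A hιA
  have hsurj : ∀ b : MvPolynomial (Fin n) R, (∀ m ∈ b.support, m ∈ K) →
      (∀ m, MvPolynomial.coeff m b ∈ C) → ∃ b', ι₀ b' = b := by
    intro b hb hbC
    obtain ⟨b1, hb1⟩ : ∃ b1 : MvPolynomial (Fin n) C, MvPolynomial.map C.subtype b1 = b := by
      refine ⟨∑ m ∈ b.support, MvPolynomial.monomial m ⟨MvPolynomial.coeff m b, hbC m⟩, ?_⟩
      rw [map_sum]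
      conv_rhs => rw [← MvPolynomial.support_sum_monomial_coeff b]
      refine Finset.sum_congr rfl fun m _ => ?_
      rw [MvPolynomial.map_monomial]
      rfl
    have hsup : ∀ m ∈ b1.support, m ∈ b.support := by
      intro m hm
      rw [MvPolynomial.mem_support_iff] at hm ⊢
      rw [← hb1, MvPolynomial.coeff_map]
      intro h
      exact hm (hCinj (by rw [h, map_zero]))
    refine ⟨AddMonoidAlgebra.comapDomain N.subtype hinj b1, ?_⟩
    have h1 : ι₁ (AddMonoidAlgebra.comapDomain N.subtype hinj b1) = b1 := by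
      apply AddMonoidAlgebra.mapDomain_comapDomain
      intro m hm
      exact ⟨⟨m, hKN m (hb m (hsup m hm))⟩, rfl⟩
    show MvPolynomial.map C.subtype (ι₁ _) = b
    rw [h1, hb1]
  choose! inv hinv using hsurj
  let v' : Unit ⊕ Fin (s + 1) → AddMonoidAlgebra C N := fun l =>
    inv ((v l : MvPolynomial (Fin n) R) ^ q)
  let w' : Unit ⊕ Fin (s + 1) → AddMonoidAlgebra C N := fun l =>
    inv ((w l : MvPolynomial (Fin n) R) ^ q)
  have hv' : ∀ l, ι₀ (v' l) = (v l : MvPolynomial (Fin n) R) ^ q := fun l =>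
    hinv _ (hKv l) (hCv l)
  have hw' : ∀ l, ι₀ (w' l) = (w l : MvPolynomial (Fin n) R) ^ q := fun l =>
    hinv _ (hKw l) (hCw l)
  have hum : Um v' := by
    refine ⟨w', ?_⟩
    apply hι₀
    rw [dotProduct, map_sum, map_one, ← hprod]
    apply Finset.sum_congr rfl
    intro l _
    rw [map_mul, hv', hw']
  have hREq := hK6 p s k hp hs hsp C hCr hCd N L hLinj D hD0 hLg v' hum
  obtain ⟨hB, -⟩ := hB7 (AddMonoidAlgebra C N) A ι
  obtain ⟨-, -, -, -, -, hmp, -⟩ := hB (Unit ⊕ Fin (s + 1))
  have h1 := hmp _ _ hREq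
  have h2 : mp ι v' = fun j => v j ^ q := by
    funext l
    apply Subtype.ext
    show ι₀ (v' l) = _
    rw [hv']
    simp
  have h3 : mp ι (row 1 0 : Unit ⊕ Fin (s + 1) → AddMonoidAlgebra C N) = row 1 0 := by
    funext l
    rcases l with l | l
    · simp [mp, row]
    · simp [mp, row]
  rw [h2, h3] at h1
  obtain ⟨hB', -⟩ := hB7 A A (RingHom.id A)
  obtain ⟨-, -, htrans, -, -, -, -⟩ := hB' (Unit ⊕ Fin (s + 1))
  exact htrans _ _ _ hvq h1

end Pool.Agent.Helper75.FU
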