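import Pool.Agent.Helper91.GU.Defs
import Pool.Agent.Helper91.GU.StA
import Pool.Agent.Helper91.GU.StB

/-!
# Project FU (MP_b1e6de_al), block G: the unit trick and the invariance under powers

THEOREM (G3).  For every commutative ring `A`: if `(a;c)` and `(w;c)` are unimodular, `c` of length `r`, then
`(a w^{r!}; c) ~ (a; c)` (same orbit of `GL_{r+1}(A)`).
COROLLARY (G4).  `(v_0,..,v_r) ~ (v_0^q,..,v_r^q)` if `q^{r+1} ≡ 1` modulo `r!`.  In characteristic `p > r` this says that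
the stably free module of `v` is isomorphic to its pull back under a power of the Frobenius map.

Here `r = s + 1`.  The definitions `REq`, `Um`, `HId`, `row`, `mp`, `idl`, `theta c t = 1 + tᵀc`, `lowU y = U(y)`,
`upV x = V(x)`, `IsSq` are those of `Pool/Agent/Helper91/GU/Defs.lean`:
`(a;c)U(y) = (a - c·y; c)`, `(a;c)V(x) = (a; c - a x)`.  Available (proved) statements of project GU: `aA0 .. aA5`,
`aB0 .. aB7`, `aC5` in `Pool/Agent/Helper91/GU/All.lean` (but please take them as hypotheses `hX : StX.{u}`).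
Models: `Pool/Agent/Helper85/GU/M_B4.lean` (for G2), `Pool/Agent/Helper58/GU/M_B5.lean` (for G1),
`Pool/Agent/Helper79/GU/M_B45.lean` (for G3).
-/

set_option autoImplicit false

namespace Pool.Agent.Helper75.FU

open Polynomial Pool.Agent.Helper91.GU

universe u

/-- G0. A natural family of matrices of determinant `1` with first row `(w^{(s+1)!}; c)`.
Proof. Let `τ` be the family of C5: first row `(w; b^{(s+1)!}, h)` for `w a' + (b,h)·z = 1`.  Put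
`σ(w,c,a',z) := δ * τ(c 0, w, tail c, z 0, cons a' (tail z)) * (permutation of the columns inl (), inr 0)`
where `δ` is diagonal with entry `-1` at `inr 0` and `1` elsewhere (left multiplication by `δ` changes the sign of the
row `inr 0`, so the first row is unchanged).  The relation needed for `τ` is
`c 0 * z 0 + (w * a' + (tail c)·(tail z)) = w a' + c·z = 1`.  Determinant: `(-1) * 1 * (-1) = 1`
(`Matrix.det_permute'`, `Matrix.det_diagonal`).  First row: the first row of `τ` is `(c 0; w^{(s+1)!}, tail c)`, after the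
exchange of the columns `inl ()`, `inr 0` it is `(w^{(s+1)!}; c 0, tail c)`.  Naturality: clear.
Hypotheses: hC5. -/
def StG0 : Prop := ∀ s : ℕ, ∃ σ : ∀ (D : Type u) [CommRing D], D → (Fin (s + 1) → D) → D →
    (Fin (s + 1) → D) → Matrix (Unit ⊕ Fin (s + 1)) (Unit ⊕ Fin (s + 1)) D,
  (∀ (D : Type u) [CommRing D] (w : D) (c : Fin (s + 1) → D) (a' : D) (z : Fin (s + 1) → D),
    w * a' + c ⬝ᵥ z = 1 → (σ D w c a' z).det = 1 ∧
    (σ D w c a' z) (Sum.inl ()) = row (w ^ (s + 1).factorial) c) ∧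
  (∀ (D D' : Type u) [CommRing D] [CommRing D'] (ψ : D →+* D') (w : D) (c : Fin (s + 1) → D)
    (a' : D) (z : Fin (s + 1) → D),
    (σ D w c a' z).map ψ = σ D' (ψ w) (mp ψ c) (ψ a') (mp ψ z))

/-- G1. `φ : C → C'`, `w ∈ C` a unit, `c` over `C` unimodular over `C'`, `m = (s+1)!`.  If `c·t = w^m - 1` over `C'` then
`θ(c;t) = δ k` with `δ ∈ GL(C)`, `k` homotopic to `1` over `C'`.
Proof (the one of B5). Write `c·z = 1` over `C'`, and `σ(w;a',z)` for the matrix of G0 with `c` fixed.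
`σ_Y = σ(w; Y w⁻¹, (1-Y) z)` over `C'[Y]` (relation: `Y + (1-Y) c·z = 1`): its value at `Y = 1` is the image of
`s_f = σ(w; w⁻¹, 0)` over `C`, at `Y = 0` it is `s_i = σ(w;0,z)`; all have first row `(w^m;c)`.
`V_f = diag(w^m,1)V(-c/w^m)` over `C` has first row `(w^m;c)`.  Let `w_X = 1 + X(w-1)` over `C'[X]`,
`t_X = (w_X^m - 1) z`, so `c·t_X = w_X^m - 1`, `t_0 = 0`; `V_i(X) = V(-c)U(-t_X)` over `C'[X]` has first row `(w_X^m;c)`.
For a matrix `[[1,0],[x,k]]` let `ρ = k` (multiplicative).  `V_f V_i(1)⁻¹ = [[1,0],[-t_1ᵀ,θ(c;t_1)]]`, so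
`θ(c;t_1) = ρ(V_f s_f⁻¹) ρ(s_f s_i⁻¹) ρ(s_i V_i(1)⁻¹)`.  The first factor comes from `GL(C)`.  The second is homotopic to
`1` by the path `ρ(σ_Y s_i⁻¹)`.  Let `k_X = ρ(σ(w_X; 0, z) V_i(X)⁻¹)` (relation `0 + c·z = 1`): the third factor is
`k_1 = (k_1 k_0⁻¹) k_0` with path `k_X k_0⁻¹`; `k_0 = ρ(σ(1;0,z)V(c))`, `k_0' = ρ(σ(1;1,0)V(c))` comes from `C`, and
`k_0 k_0'⁻¹` is homotopic to `1` by the path `ρ(σ(1; 1-Y, Y z) σ(1;1,0)⁻¹)`.  So `θ(c;t_1) = δ₁ k₁ k₂ k₃ δ₂`; move `δ₂` to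
the left (B0: conjugates of matrices homotopic to `1`).  Finally `θ(c;t) = k' θ(c;t_1)`, `k'` homotopic to `1` (B3(b) with
`u = w^m`, as `c·t = c·t_1`).
Hypotheses: hB0 hB3 hG0. -/
def StG1 : Prop := ∀ (C C' : Type u) [CommRing C] [CommRing C'] (φ : C →+* C') (s : ℕ) (w : C)
  (c : Fin (s + 1) → C), IsUnit w → Um (mp φ c) →
  ∀ t : Fin (s + 1) → C', mp φ c ⬝ᵥ t = φ w ^ (s + 1).factorial - 1 →
  ∃ (δ : Matrix (Fin (s + 1)) (Fin (s + 1)) C) (k : Matrix (Fin (s + 1)) (Fin (s + 1)) C'),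
    IsUnit δ.det ∧ HId k ∧ theta (mp φ c) t = δ.map φ * k

/-- G2. Patching.  Over `A_f`: `a`, `ω` units; over `A_i`: `c` unimodular; for every `t` over `A_{fi}` with
`c·t = ω - 1` the matrix `θ(c;t)` is `δ k`, `δ ∈ GL_r(A_f)`, `k` homotopic to `1`.  Then `(a;c) ~ (aω;c)`.
Proof. For a unit `b` of `A_f` (`b = a` or `b = aω`) let `τ_f(b) = V(c/b) diag(b⁻¹,1)` over `A_f`
(`(b;c) → (b;0) → (1;0)`) and, over `A_i`, choose `y_b` with `c·y_b = b - 1` and let `τ_i(b) = U(y_b)V(c)`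
(`(b;c) → (1;c) → (1;0)`).  Then `τ_f(b)⁻¹ τ_i(b) = diag(b,1)V(-c/b)U(y_b)V(c) = [[1,0],[-y_bᵀ, θ(c;y_b)]]` over
`A_{fi}`.  Put `g_f = τ_f(a) diag(1,δ⁻¹) τ_f(aω)⁻¹`, `g_i = τ_i(a) τ_i(aω)⁻¹`: both map `(a;c)` to `(aω;c)`.
`τ_i(a)⁻¹ g_f g_i⁻¹ τ_i(a) = (τ_f(a)⁻¹τ_i(a))⁻¹ diag(1,δ⁻¹) (τ_f(aω)⁻¹τ_i(aω)) = [[1,0],[x, k₁]]` with
`k₁ = θ(c;y_a)⁻¹ δ⁻¹ θ(c;y_{aω})` for some column `x`.  Let `t` be any solution of `c·t = ω - 1` (e.g. `t = (ω-1) z`,
`c·z = 1` over `A_{fi}`), `θ(c;t) = δ k`.  `θ(c;t) θ(c;y_a) = θ(c; y_a + a t)` (direct computation: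
`(1+tᵀc)(1+yᵀc) = 1 + (t + y + (c·y)t)ᵀc`, `c·y = a - 1`) and `c·(y_a + a t) = aω - 1`, so by B3(b)
`θ(c;y_{aω}) = k' θ(c;t) θ(c;y_a)`, `k'` homotopic to `1`.  Hence `k₁ = θ(c;y_a)⁻¹ (δ⁻¹ k' δ) k θ(c;y_a)` is homotopic to
`1` (B0), say by the path `k₁(X)`, and the path `τ_i(a) [[1,0],[X x, k₁(X)]] τ_i(a)⁻¹` fixes `(a;c)`.  Apply A4.
Hypotheses: hA4 hB0 hB3. -/
def StG2 : Prop := ∀ (A Af Ai Afi : Type u) [CommRing A] [CommRing Af] [CommRing Ai] [CommRing Afi]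
  [Algebra A Af] [Algebra A Ai] [Algebra A Afi] [Algebra Af Afi] [Algebra Ai Afi] (f i : A),
  IsSq A Af Ai Afi f i → ∀ (r : ℕ) (a ω : A) (c : Fin r → A),
  IsUnit (algebraMap A Af a) → IsUnit (algebraMap A Af ω) →
  1 ∈ idl (mp (algebraMap A Ai) c) →
  (∀ t : Fin r → Afi, mp (algebraMap A Afi) c ⬝ᵥ t = algebraMap A Afi ω - 1 →
    ∃ (δ : Matrix (Fin r) (Fin r) Af) (k : Matrix (Fin r) (Fin r) Afi), IsUnit δ.det ∧ HId k ∧
      theta (mp (algebraMap A Afi) c) t = δ.map (algebraMap Af Afi) * k) →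
  REq (row a c) (row (a * ω) c)

/-- G3. THEOREM.  `(a;c)`, `(w;c)` unimodular, `c` of length `s + 1`: `(a w^{(s+1)!}; c) ~ (a;c)`.
Proof. `a w` is a unit modulo `(c)`: there are `i ∈ (c)` and `x` with `a w x + i = 1` (multiply the relations
`a a' + c·y = 1`, `w w' + c·y' = 1`).  `f = a w x`, `i` are coprime.  Take the square of A0.  Over `A_f` the elements `a`,
`w` are units, over `A_i` the row `c` is unimodular (`i ∈ (c)` is a unit).  G2 with `ω = w^m`; its last hypothesis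
is G1 with `C = A_f`, `C' = A_{fi}` (`c` is unimodular over `A_{fi}` since `i ∈ (c)` is a unit there; the element
`algebraMap A A_f w` and the row `mp (algebraMap A A_f) c`; use the scalar tower `towf` of the square as in M_B45).
Hypotheses: hA0 hB7 hG1 hG2. -/
def StG3 : Prop := ∀ (A : Type u) [CommRing A] (s : ℕ) (a w : A) (c : Fin (s + 1) → A),
  Um (row a c) → Um (row w c) → REq (row (a * w ^ (s + 1).factorial) c) (row a c)

/-- G4. INVARIANCE UNDER POWERS.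
Proof. `s ≥ 1`, `m = (s+1)!`, `q^{s+2} = 1 + m k` (`q ≥ 1`, as `m ≥ 2`).  Write `v = (a;c)`.  `(a^k;c)` is unimodular
(`Pool.Agent.Helper78.GU.Um.pow`, or: `a` is a unit modulo `(c)`), G3 with `w = a^k`:
`(a^{q^{s+2}};c) = (a (a^k)^m; c) ~ (a;c)`.
Next `(a^{q^{s+2}}; c_0,..,c_s) ~ (a^q; c_0^q,..,c_s^q)`: for `j = 0,..,s+1` show
`(a^{q^{s+2}};c) ~ (a^{q^{s+2-j}}; c_0^q,..,c_{j-1}^q, c_j,..,c_s)` by induction on `j` with the exponent move
`(x^n, y, z, ..) ~ (x, y^n, z, ..)` of `Pool.Agent.Helper78.GU.RE.expo` (`n = q`, `x = a^{q^{s+2-j-1}}`, `y = c_j`; it needs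
a third index, `s + 2 ≥ 3`; unimodularity is preserved by `~`).  `RE.eqv` turns elementary equivalence into `REq`
(`Eqv` is the same as `REq`; the `Um` of Helper78 is `∃ a, ∑ a_i v_i = 1`).
Hypotheses: hB7 hG3. -/
def StG4 : Prop := ∀ (A : Type u) [CommRing A] (s q : ℕ), 1 ≤ s →
  q ^ (s + 2) ≡ 1 [MOD (s + 1).factorial] →
  ∀ v : Unit ⊕ Fin (s + 1) → A, Um v → REq v (fun j => v j ^ q)

/-- G5. Powers of a prime `p > s + 1`.
Proof. `p` is coprime to `m = (s+1)!` (`Nat.coprime_factorial_iff` or `Nat.Prime.dvd_factorial`), so `p^{φ(m)} ≡ 1`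
modulo `m` (`Nat.ModEq.pow_totient`), `e = (e₀ + 1) φ(m) ≥ e₀` (`φ(m) ≥ 1`), `q = p^e`, `q ≡ 1`, `q^{s+2} ≡ 1`; G4.
Hypotheses: hG4. -/
def StG5 : Prop := ∀ (A : Type u) [CommRing A] (p s : ℕ), p.Prime → s + 1 < p → 1 ≤ s →
  ∀ v : Unit ⊕ Fin (s + 1) → A, Um v → ∀ e₀ : ℕ, ∃ e : ℕ, e₀ ≤ e ∧ REq v (fun j => v j ^ p ^ e)

end Pool.Agent.Helper75.FU
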