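import Mathlib

/-!
# Project FU, block L: a lemma on lattices and cones

LEMMA (L5).  `M` a submonoid of `ℕ^n` which contains a positive multiple of every unit vector, `K` a finite set of
elements of `M` with positive coordinates, `p ≥ 2`.  There are `e` and `F_1, .., F_n ∈ M`, linearly independent, such that
every `p^e m`, `m ∈ K`, is a combination of the `F_j` with nonnegative integer coefficients.
(The lattice has a basis over `ℤ[1/p]` whose cone is as close as we like to the positive orthant.)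

`PZ p x` says that the rational number `x` lies in `ℤ[1/p]`.
-/

set_option autoImplicit false

namespace Pool.Agent.Helper75.FU

/-- `x ∈ ℤ[1/p]` -/
def PZ (p : ℕ) (x : ℚ) : Prop := ∃ (k : ℕ) (z : ℤ), x * (p : ℚ) ^ k = z

/-- `x` is a combination of the vectors `g_j` with coefficients in `ℤ[1/p]` -/
def PSpan (p n : ℕ) (g : Fin n → (Fin n → ℚ)) (x : Fin n → ℚ) : Prop :=
  ∃ c : Fin n → ℚ, (∀ j, PZ p (c j)) ∧ x = ∑ j, c j • g j

/-- L1. A triangular basis of a lattice.  `Λ` a subgroup of `ℤ^n` which contains `D e_i` for all `i`, `D > 0`.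
Proof. For every `j` the `j`-th coordinates of the `x ∈ Λ` with `x_i = 0` for all `i < j` form a subgroup `≠ 0` of `ℤ`
(it contains `D`); let `β_j > 0` be its generator and `g_j ∈ Λ` a vector with `(g_j)_i = 0` for `i < j`,
`(g_j)_j = β_j`.  Let `x ∈ Λ`.  By induction on `l ≤ n` there are integers `c_j` (`j < l`) such that
`x - ∑_{j<l} c_j g_j` has zero coordinates `< l`: its `l`-th coordinate is a multiple of `β_l`.  `l = n`.
Hypotheses: none. -/
def StL1 : Prop := ∀ (n : ℕ) (Λ : AddSubgroup (Fin n → ℤ)) (D : ℤ), 0 < D →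
  (∀ i, (Pi.single i D : Fin n → ℤ) ∈ Λ) →
  ∃ g : Fin n → (Fin n → ℤ), (∀ j, g j ∈ Λ) ∧ (∀ j i, i < j → g j i = 0) ∧ (∀ j, 0 < g j j) ∧
    ∀ x ∈ Λ, ∃ c : Fin n → ℤ, x = ∑ j, c j • g j

/-- L2. Moving the basis.  `g` triangular with positive diagonal, `ε > 0`.  There is `f` with the same span over `ℤ[1/p]`,
all coordinates positive, and `|(f_j)_i - δ_ij (g_j)_j| < ε`.
Proof. `ℤ[1/p]` is dense in `ℚ`.  Step 1: for each `j` choose successively for `i = j+1, .., n` numbers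
`c_{ij} ∈ ℤ[1/p]` such that `f'_j = g_j + ∑_{i>j} c_{ij} g_i` has `i`-th coordinate in `(0, ε/2)` for `i > j` (the `i`-th
coordinate of `g_j + ∑_{j<l≤i} c_{lj} g_l` is `(..) + c_{ij} β_i`, and the later `g_l`, `l > i`, do not change it).
`(f'_j)_i = 0` for `i < j`, `(f'_j)_j = β_j`.  (Induction on the number of treated indices; `g_j` is a `ℤ[1/p]`-combination
of the `f'_i`, `i ≥ j`, by downward induction on `j`.)
Step 2: `f_j = f'_j + θ ∑_{l<j} f'_l`, `θ = p^{-k}`, `k` large.  `i < j`: `(f_j)_i = θ ∑_{l≤i} (f'_l)_i ∈ (0, ε)` as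
`(f'_i)_i = β_i > 0`.  `i > j`: `(f'_j)_i + θ ∑_{l<j} (f'_l)_i ∈ (0, ε)`.  `i = j`: in `[β_j, β_j + ε)`.  The `f'_j` are
combinations of the `f_l`, `l ≤ j`, by induction on `j`.
Hypotheses: none. -/
def StL2 : Prop := ∀ (n p : ℕ), 2 ≤ p → ∀ g : Fin n → (Fin n → ℤ), (∀ j i, i < j → g j i = 0) →
  (∀ j, 0 < g j j) → ∀ ε : ℚ, 0 < ε → ∃ f : Fin n → (Fin n → ℚ),
    (∀ j i, 0 < f j i) ∧ (∀ j i, i ≠ j → f j i < ε) ∧ (∀ j, |f j j - (g j j : ℚ)| < ε) ∧
    (∀ j, PSpan p n (fun l i => (g l i : ℚ)) (f j)) ∧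
    (∀ j, PSpan p n f (fun i => (g j i : ℚ)))

/-- L3. Coordinates.  `β_j > 0`, `K` a finite set of positive vectors.  There is `ε > 0` such that for all `f` with
`|(f_j)_i - δ_ij β_j| < ε` the `f_j` are linearly independent and every `x ∈ K` is a combination of the `f_j` with positive
coefficients.
Proof. (`n = 0` trivial.)  Let `b = min β_j`, `y = (x_i/β_i)_i`, `η` a lower bound `> 0` and `H ≥ η` an upper bound for the `y_i`
(all `x ∈ K`).  Choose `ε` with `n ε/b < 1/2` and `2 n ε H/b < η`.  `f = B(1+E)` (columns `f_j`, `B = diag(β)`), entries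
of `E` at most `ε/b`.  Linear independence: `∑ z_j f_j = 0` gives `z = -E z`, `|z|_∞ ≤ (nε/b)|z|_∞`, so `z = 0`.  Hence the
matrix is invertible (`Matrix` over `ℚ`; or: `n` independent vectors of `ℚ^n` form a basis) and `∑ z_j f_j = x` has a
solution: `z = y - E z`, `|z|_∞ ≤ |y|_∞ + |z|_∞/2`, so `|z|_∞ ≤ 2H`, `z_i ≥ y_i - (nε/b) 2H ≥ η - 2nεH/b > 0`.
Hypotheses: none. -/
def StL3 : Prop := ∀ (n : ℕ) (β : Fin n → ℚ), (∀ j, 0 < β j) → ∀ K : Finset (Fin n → ℚ),
  (∀ x ∈ K, ∀ i, 0 < x i) → ∃ ε : ℚ, 0 < ε ∧ ∀ f : Fin n → (Fin n → ℚ),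
    (∀ j i, i ≠ j → |f j i| < ε) → (∀ j, |f j j - β j| < ε) →
    LinearIndependent ℚ f ∧ ∀ x ∈ K, ∃ z : Fin n → ℚ, (∀ j, 0 < z j) ∧ x = ∑ j, z j • f j

/-- L4. Large elements of the lattice lie in the monoid.
Proof. `Λ` = the elements `a - b`, `a, b ∈ M` (it is the subgroup generated by `M`; here given by the hypothesis on
`x`).  `a - b = (a + (D-1) b) - D b`, so modulo `D ℤ^n` every `x ∈ Λ` is congruent to the element `a + (D-1) b` of `M`.
There are only finitely many classes modulo `D ℤ^n` (`Fin n → ZMod D`); choose for every class which meets `M` a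
representative in `M`, `c₀` = the maximum of the coordinates of the representatives.  Let `x = a - b` have all
coordinates `≥ c₀`, `m` the representative of its class: `x - m ≥ 0`, `x - m ∈ D ℤ^n`, so `x - m ∈ D ℕ^n ⊂ M` and
`x ∈ M`.
Hypotheses: none. -/
def StL4 : Prop := ∀ (n : ℕ) (M : AddSubmonoid (Fin n → ℕ)) (D : ℕ), 0 < D →
  (∀ i, (Pi.single i D : Fin n → ℕ) ∈ M) →
  ∃ c₀ : ℕ, ∀ x : Fin n → ℕ, (∀ i, c₀ ≤ x i) → (∃ a ∈ M, ∃ b ∈ M, x + b = a) → x ∈ M

/-- L5. THE LEMMA.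
Proof. `Λ` = subgroup of `ℤ^n` generated by the image of `M`; it contains `D e_i`; its elements are the differences
`a - b`, `a, b ∈ M` (`AddSubgroup.closure_induction`).  L1: `g`.  L3 with `β_j = (g_j)_j` and (the image of) `K`: `ε`.
L2 with this `ε`: `f`.  Every `m ∈ K` is `∑ z_j f_j` with `z_j > 0`; since `m ∈ Λ` is an integer combination of the
`g_j` and these are `ℤ[1/p]`-combinations of the `f_j`, the (unique, linear independence) coordinates `z_j` lie in
`ℤ[1/p]`: `p^{e₁} z_j ∈ ℕ` for all `m ∈ K`, `j` (common `e₁`).  Each `f_j` is a `ℤ[1/p]`-combination of the `g_l`: for large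
`e₂` the vectors `F_j = p^{e₂} f_j` lie in `Λ` and all their coordinates are `≥ c₀` (`f_j` has positive coordinates,
`p^{e₂} → ∞`), L4: `F_j ∈ M`.  `p^{e₁+e₂} m = ∑ (p^{e₁} z_j) F_j`, `e = e₁ + e₂`.  The map `a ↦ ∑ a_j F_j` is injective since
the `f_j` are linearly independent.
Hypotheses: hL1 hL2 hL3 hL4. -/
def StL5 : Prop := ∀ (n : ℕ) (M : AddSubmonoid (Fin n → ℕ)) (D : ℕ), 0 < D →
  (∀ i, (Pi.single i D : Fin n → ℕ) ∈ M) →
  ∀ K : Finset (Fin n → ℕ), (∀ m ∈ K, m ∈ M ∧ ∀ i, 0 < m i) → ∀ p : ℕ, 2 ≤ p →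
  ∃ (e : ℕ) (F : Fin n → (Fin n → ℕ)), (∀ j, F j ∈ M) ∧
    (Function.Injective fun a : Fin n → ℕ => ∑ j, a j • F j) ∧
    ∀ m ∈ K, ∃ a : Fin n → ℕ, p ^ e • m = ∑ j, a j • F j

end Pool.Agent.Helper75.FU
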