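import Pool.Agent.Helper91.GU.Defs
import Pool.Agent.Helper91.GU.StA
import Pool.Agent.Helper91.GU.StB
import Pool.Agent.Helper91.GU.StF
import Pool.Agent.Helper91.GU.StH

/-!
# Project FU, block P: Horrocks' theorem for unimodular rows

`RX C = C(X)` is the localisation of `C[X]` at the monic polynomials.  `Sg C a b` is the set of the fractions `p/s`, `s`
monic, with `deg p + a ≤ deg s + b`; so `Sg C 0 0` is the ring of the fractions which are finite at `X = ∞`.
THEOREM (P7): a unimodular row over `C[X]` which is completable over `C(X)` is equivalent to its value at `X = 0`.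
-/

set_option autoImplicit false

namespace Pool.Agent.Helper75.FU

open Polynomial Pool.Agent.Helper91.GU

universe u

/-- the monic polynomials -/
def monS (C : Type u) [CommRing C] : Submonoid C[X] where
  carrier := {p | p.Monic}
  one_mem' := monic_one
  mul_mem' := fun ha hb => ha.mul hb

/-- `C(X)`: the polynomial ring localised at the monic polynomials -/
abbrev RX (C : Type u) [CommRing C] : Type u := Localization (monS C)

/-- the canonical map `C[X] → C(X)` -/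
noncomputable abbrev toRX (C : Type u) [CommRing C] : C[X] →+* RX C := algebraMap C[X] (RX C)

/-- fractions `p/s`, `s` monic, `deg p + a ≤ deg s + b` -/
def Sg (C : Type u) [CommRing C] (a b : ℕ) : Set (RX C) :=
  {x | ∃ p s : C[X], s.Monic ∧ p.natDegree + a ≤ s.natDegree + b ∧ x * toRX C s = toRX C p}

/-- the extension of the maximal ideal of a local ring `C` to `C(X)` -/
noncomputable def mRX (C : Type u) [CommRing C] [IsLocalRing C] : Ideal (RX C) :=
  (IsLocalRing.maximalIdeal C).map ((toRX C).comp (Polynomial.C : C →+* C[X]))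

/-- P1. Properties of `Sg`.  Let `y ∈ C(X)` be the inverse of `X`.
(a) `0 ∈ Sg a b` (`p = 0`, `s = X^a`), closed under addition (`(p s' + p' s)/(s s')`, `natDegree_add_le`,
`natDegree_mul_le`, `Monic.natDegree_mul`) and negation; (b) products; monotone in `a - b`; (c) constants; (d) every
element lies in some `Sg 0 b` (`b = deg p`); (e) division with remainder by the monic `s`: `p/s = q + r/s`, `r/s ∈ Sg 1 0`
(`Polynomial.modByMonic`, `degree_modByMonic_lt`; if `s = 1` then `r = 0` and (a) applies); (f) `p/s ∈ Sg j 0`, so `j ≤ deg s`; `c` = coefficient of `p` at `deg s - j`: `p/s - c/X^j =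
(p X^j - c s)/(s X^j)`, the coefficient of `p X^j - c s` at `deg s` is `0`, so it is `0` (use (a)) or
`deg (p X^j - c s) + (j+1) ≤ deg (s X^j)`; (g) if `q ∈ C[X]` lies in `Sg 0 0` then it is constant: `q s = p`
(the map `C[X] → C(X)` is injective: monic polynomials are nonzerodivisors), `deg q + deg s = deg (q s) ≤ deg s`.
Hypotheses: none. -/
def StP1 : Prop := ∀ (C : Type u) [CommRing C] [Nontrivial C], ∃ y : RX C, y * toRX C X = 1 ∧
  (∀ a b, (0 : RX C) ∈ Sg C a b) ∧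
  (∀ a b, ∀ x ∈ Sg C a b, ∀ x' ∈ Sg C a b, x + x' ∈ Sg C a b) ∧
  (∀ a b, ∀ x ∈ Sg C a b, -x ∈ Sg C a b) ∧
  (∀ a b a' b', ∀ x ∈ Sg C a b, ∀ x' ∈ Sg C a' b', x * x' ∈ Sg C (a + a') (b + b')) ∧
  (∀ a b a' b', a' + b ≤ a + b' → ∀ x ∈ Sg C a b, x ∈ Sg C a' b') ∧
  (∀ c : C, toRX C (Polynomial.C c) ∈ Sg C 0 0) ∧
  (∀ x : RX C, ∃ b, x ∈ Sg C 0 b) ∧
  (∀ x : RX C, ∃ q : C[X], ∃ z ∈ Sg C 1 0, x = toRX C q + z) ∧
  (∀ j, ∀ x ∈ Sg C j 0, ∃ c : C, x - toRX C (Polynomial.C c) * y ^ j ∈ Sg C (j + 1) 0) ∧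
  (∀ q : C[X], toRX C q ∈ Sg C 0 0 → ∃ c : C, q = Polynomial.C c) ∧
  Function.Injective (toRX C)

/-- P2. NAKAYAMA.  `C` local, `γ, γ'` inverse matrices over `C(X)`, `γ' ≡ 1` modulo `𝔪`.  Every row over `C(X)` is
`a + σ γ'` with `a` over `C[X]` and `σ` over `Sg 0 0`.
Proof. `D = C(X)`, `Σ = Sg 0 0`.  `Q` = the set of the rows `a + σ γ'`; it is a `C`-submodule of `D^n` (P1).
(1) By P1(d) there is `t` with all entries of `γ` in `Sg 0 t`.  A row `ρ` with entries in `Sg (t+1) 0` is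
`(ρ γ) γ'` and `ρ γ` has entries in `Sg (t+1) t ⊂ Σ` (P1: products, sums, monotonicity): `ρ ∈ Q`.
(2) By P1(e), (f) (induction on `j = 1, .., t+1`) every `x ∈ D` is `q + ∑_{1≤j≤t} c_j y^j + z`, `z ∈ Sg (t+1) 0`.  So
`D^n/Q` is generated as a `C`-module by the finitely many classes of `y^j e_i`.
(3) `D^n = Q + 𝔪 D^n`: by P1(e) a row is `a + z`, `a` over `C[X]`, `z` over `Sg 1 0 ⊂ Σ`, and
`z = z γ' + z (1 - γ')`, where `z (1 - γ')` has entries in `𝔪 D`.
Nakayama (`Submodule.le_of_le_smul_of_le_jacobson_bot` or `Submodule.FG` version for `D^n/Q`): `D^n = Q`.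
Hypotheses: hP1. -/
def StP2 : Prop := ∀ (C : Type u) [CommRing C] [IsLocalRing C] (n : Type) [Fintype n]
  [DecidableEq n] (γ γ' : Matrix n n (RX C)), γ * γ' = 1 →
  (∀ i j, γ' i j - (1 : Matrix n n (RX C)) i j ∈ mRX C) →
  ∀ x : n → RX C, ∃ (a : n → C[X]) (σ : n → RX C), (∀ j, σ j ∈ Sg C 0 0) ∧
    x = (fun j => toRX C (a j)) + Matrix.vecMul σ γ'

/-- P3. SECTIONS.  There are `h` over `C[X]`, `g` over `Sg 0 0` with `h = g γ'` and `h ≡ 1` modulo `𝔪`.
Proof. Row `i`: `e_i - e_i γ'` has entries in `𝔪 D`; so it is a finite sum `∑_l μ_l x_l`, `μ_l ∈ 𝔪`, `x_l ∈ D^n`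
(an element of `𝔪 D` is `∑ μ_l d_l`: `Submodule.span_induction` / `Ideal.map` is the span of the image; collect the
coordinates).  P2: `x_l = a_l + σ_l γ'`.  Then `e_i - ∑ μ_l a_l = (e_i + ∑ μ_l σ_l) γ'`: row `i` of `h` is the left side,
row `i` of `g` is `e_i + ∑ μ_l σ_l` (entries in `Sg 0 0` by P1).
(To organise the proof: the set of the rows `x` for which there are `a` with entries in `𝔪[X]` and `σ` over `Sg 0 0` with
`x = a + σ γ'` is closed under addition and contains `μ x` for `μ ∈ 𝔪`, `x` arbitrary.)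
Hypotheses: hP1 hP2. -/
def StP3 : Prop := ∀ (C : Type u) [CommRing C] [IsLocalRing C] (n : Type) [Fintype n]
  [DecidableEq n] (γ γ' : Matrix n n (RX C)), γ * γ' = 1 →
  (∀ i j, γ' i j - (1 : Matrix n n (RX C)) i j ∈ mRX C) →
  ∃ (h : Matrix n n C[X]) (g : Matrix n n (RX C)), (∀ i j, g i j ∈ Sg C 0 0) ∧
    h.map (toRX C) = g * γ' ∧
    ∀ i j, h i j - (1 : Matrix n n C[X]) i j ∈ (IsLocalRing.maximalIdeal C).map (Polynomial.C)

/-- P4. FACTORISATION.  `C` local, `γ` invertible over `C(X)`, `γ ≡ 1` modulo `𝔪`, `v` over `C[X]`, `v γ = e_{i₀}`.  Then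
`v ~ u` over `C[X]` for a constant row `u`.
Proof. `γ' = γ⁻¹ ≡ 1` modulo `𝔪` (`γ' - 1 = γ'(1 - γ)`).  P3 for `γ, γ'`: `h = g γ'`, so `h γ = g`.  P3 for the transposed
matrices, `γ'ᵀ` in the role of `γ` and `γᵀ` in the role of `γ'`: `h₂ = g₂ γᵀ`; `k = h₂ᵀ`, `l = g₂ᵀ`: `k = γ l`, `k` over
`C[X]`, `l` over `Sg 0 0`, `k ≡ 1` modulo `𝔪`.  `h k = h γ l = g l` has entries in `C[X]` and in `Sg 0 0`, hence in `C`
(P1(g)): `h k = c₀` constant, `c₀ ≡ 1` modulo `𝔪` (evaluate `h k ≡ 1` modulo `𝔪[X]` at `0`), so `det c₀` is a unit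
of `C` (`1 + 𝔪`).  Hence `h` and `k` are invertible, `g` has the inverse `l c₀⁻¹`.  `u := v h⁻¹` (over `C[X]`):
`u g = v h⁻¹ h γ = v γ = e_{i₀}` over `C(X)`, so `u = e_{i₀} l c₀⁻¹` has entries in `Sg 0 0`, so `u` is constant (P1(g)).
Hypotheses: hP1 hP3. -/
def StP4 : Prop := ∀ (C : Type u) [CommRing C] [IsLocalRing C] (n : Type) [Fintype n]
  [DecidableEq n] (i₀ : n) (v : n → C[X]) (γ : Matrix n n (RX C)), IsUnit γ.det →
  (∀ i j, γ i j - (1 : Matrix n n (RX C)) i j ∈ mRX C) →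
  Matrix.vecMul (fun j => toRX C (v j)) γ = Pi.single i₀ 1 →
  ∃ u : n → C, REq v (fun j => Polynomial.C (u j))

/-- P5. LIFTING.  `C` local, `γ` invertible over `C(X)` (size `1 + r`) whose first row is `≡ (1;0)` modulo `𝔪`.  There is an
invertible `δ` with first row exactly `(1;0)` and `γ δ ≡ 1` modulo `𝔪`.
Proof. `K = C(X)/𝔪C(X)` is a field: `1 ∉ 𝔪C(X)` (map `C(X) → Frac((C/𝔪)[X])`), and every element `p/s` outside `𝔪C(X)`
is congruent modulo `𝔪C(X)` to a UNIT of `C(X)`: `p ∉ 𝔪[X]`; let `d` be the largest index such that the coefficient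
`c` of `p` at `d` is not in `𝔪` (a unit); drop the higher terms (they lie in `𝔪[X]`): `p ≡ c p₁`, `p₁` monic.
The image of `γ` in `GL(K)` is `[[1,0],[ξ,η]]`, with inverse `[[1,0],[-η⁻¹ξ, η⁻¹]]`.  It suffices to lift `η⁻¹ ∈ GL_r(K)`
to an invertible matrix over `C(X)` (then `δ = [[1,0],[any lift, lift]]`, block determinant).  Over the field `K` the
matrix `η⁻¹` is a product of transvections and a diagonal matrix with nonzero entries
(`Matrix.Pivot.exists_list_transvec_mul_diagonal_mul_list_transvec`); lift the entries of the transvections arbitrarily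
and the diagonal entries to units.
Hypotheses: none. -/
def StP5 : Prop := ∀ (C : Type u) [CommRing C] [IsLocalRing C] (r : ℕ)
  (γ : Matrix (Unit ⊕ Fin r) (Unit ⊕ Fin r) (RX C)), IsUnit γ.det →
  (∀ j, γ (Sum.inl ()) j - (1 : Matrix (Unit ⊕ Fin r) (Unit ⊕ Fin r) (RX C)) (Sum.inl ()) j ∈
    mRX C) →
  ∃ δ : Matrix (Unit ⊕ Fin r) (Unit ⊕ Fin r) (RX C), IsUnit δ.det ∧
    (∀ j, δ (Sum.inl ()) j = (1 : Matrix (Unit ⊕ Fin r) (Unit ⊕ Fin r) (RX C)) (Sum.inl ()) j) ∧
    ∀ i j, (γ * δ) i j - (1 : Matrix (Unit ⊕ Fin r) (Unit ⊕ Fin r) (RX C)) i j ∈ mRX C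

/-- P6. LOCAL HORROCKS.  `C` local, `r ≥ 1`, `(a;c)` unimodular over `C[X]` and equivalent to `(1;0)` over `C(X)`.  Then
`(a;c) ~ (1;0)` over `C[X]`.
Proof. `k = C/𝔪`.  S0 over `k[X]` (`r ≥ 1` gives a second index): the row is elementarily equivalent modulo `𝔪` to
`(1;0)`; lift the elementary matrix (B0, `C[X] → k[X]` surjective): we may assume `(a;c) ≡ (1;0)` modulo `𝔪` (the new
row is still unimodular and equivalent to `(1;0)` over `C(X)`; B7).  Let `(a;c) γ = (1;0)`, `γ ∈ GL(C(X))`.  The first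
row of `γ` is `≡ (1;0)` modulo `𝔪` (as `(1;0) γ ≡ (a;c) γ`).  P5: `δ`, and `γ δ ≡ 1`, `(a;c) γ δ = (1;0) δ = (1;0)`.
P4 with `γ δ`: `(a;c) ~ u`, `u` constant; `u` is unimodular over `C[X]`, hence over `C` (evaluate at `0`); H4:
`u ~ (1;0)` over `C`, hence over `C[X]` (B7).
Hypotheses: hB0 hB7 hS0 hH4 hP4 hP5. -/
def StP6 : Prop := ∀ (C : Type u) [CommRing C] [IsLocalRing C] (r : ℕ), 1 ≤ r →
  ∀ (a : C[X]) (c : Fin r → C[X]), Um (row a c) →
  REq (mp (toRX C) (row a c)) (row 1 0) → REq (row a c) (row 1 0)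

/-- P7. AFFINE HORROCKS.  `C` any ring, `r ≥ 1`, `v` unimodular over `C[X]` and equivalent to `(1;0)` over `C(X)`.  Then
`v ~ v(0)` over `C[X]`.
Proof. A5: it suffices to show `v ~ v(0)` over `C_𝔫[X]` for every maximal ideal `𝔫`.  Monic polynomials stay monic, so
there is a ring map `C(X) → C_𝔫(X)` compatible with `C[X] → C_𝔫[X]` (`IsLocalization.map`/`lift`); B7: the image of
`v` is equivalent to `(1;0)` over `C_𝔫(X)`.  P6: `v ~ (1;0)` over `C_𝔫[X]`.  `v(0)` is unimodular over `C_𝔫`: H4,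
`v(0) ~ (1;0)`.
Hypotheses: hA5 hB7 hH4 hP6. -/
def StP7 : Prop := ∀ (C : Type u) [CommRing C] (r : ℕ), 1 ≤ r →
  ∀ v : Unit ⊕ Fin r → C[X], Um v → REq (mp (toRX C) v) (row 1 0) →
  REq v (fun j => Polynomial.C ((v j).eval 0))

/-- N1. Dimension of `R(X)`.
Proof. `RX R` is a localisation of the Noetherian ring `R[X]`.  A prime of `R(X)` is given by a prime `Q` of `R[X]`
without monic elements, and the height is the same (`IsLocalization.height_comap`); show `height Q ≤ N`.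
(1) `Q ∩ R = 𝔪`: then `Q ⊃ 𝔪[X]`; if `Q ≠ 𝔪[X]`, `Q` contains `f ∉ 𝔪[X]`; drop the terms with coefficients in `𝔪` above
the largest unit coefficient (they are in `𝔪[X] ⊂ Q`) and divide by it: a monic element of `Q`, contradiction.  So
`Q = 𝔪[X]`, which is strictly contained in the prime `(𝔪, X)`: `height Q + 1 ≤ height (𝔪,X) ≤ dim R[X] = dim R + 1`
(`Polynomial.ringKrullDim_of_isNoetherianRing`; `Ideal.height_strict_mono_of_is_prime`-type lemma).
(2) `𝔭 = Q ∩ R ≠ 𝔪`: `Q` survives in `R_𝔭[X]` (localisation of `R[X]` at `R \\ 𝔭`), so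
`height Q ≤ dim R_𝔭[X] = height 𝔭 + 1 ≤ height 𝔪 ≤ N` (`𝔭 < 𝔪`).
(Helpful: module D3, `Pool/Agent/Helper78/GU/M_D3.lean`.)
Hypotheses: none (or hD3). -/
def StN1 : Prop := ∀ (R : Type u) [CommRing R] [IsLocalRing R] [IsNoetherianRing R] (N : ℕ),
  ringKrullDim R ≤ N → IsNoetherianRing (RX R) ∧ ringKrullDim (RX R) ≤ N

/-- rows of length `s + 2` over `R[X_1, .., X_n]` are equivalent to their constant term, for all Noetherian rings `R`
of dimension at most `2 s` in which `(s+1)!` is a unit -/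
def PN (s n : ℕ) : Prop := ∀ (R : Type u) [CommRing R] [IsNoetherianRing R],
  ringKrullDim R ≤ (2 * s : ℕ) → IsUnit ((s + 1).factorial : R) →
  ∀ v : Unit ⊕ Fin (s + 1) → MvPolynomial (Fin n) R, Um v →
  REq v (fun j => MvPolynomial.C (MvPolynomial.constantCoeff (v j)))

/-- N2. The induction step over a local ring.
Proof. `MvPolynomial (Fin (n+1)) R ≅ C[X]`, `C = MvPolynomial (Fin n) R` (`MvPolynomial.finSuccEquiv`).  `R(X) = RX R` is
Noetherian of dimension `≤ 2s` (N1), `(s+1)!` is a unit.  There is a ring map `C[X] → MvPolynomial (Fin n) (RX R)`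
(`X_i ↦ X_i`, `X ↦ X ∈ R(X)`).  `PN s n` for `RX R`: the image of `v` is equivalent to its constant term, the image of
`v(0,..,0,X)`, a unimodular row over `R[X]`, which is `~ (1;0)` by Theorem S.  So `v ~ (1;0)` over
`MvPolynomial (Fin n) (RX R)`, hence over `C(X)` (ring map `MvPolynomial (Fin n) (RX R) → RX C`: `R(X) → C(X)` because
monic polynomials over `R` are monic over `C`; the composition `C[X] → MvPolynomial (Fin n) (RX R) → RX C` is the
canonical map).  P7: `v ~ v(X = 0)` over `C[X]`; `v(X=0)` is a unimodular row over `C`, by `PN s n` for `R` it is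
equivalent to its constant term, a unimodular row over `R`, `~ (1;0)` by H4.
Hypotheses: hS hB7 hH4 hP7 hN1. -/
def StN2 : Prop := ∀ s n : ℕ, 1 ≤ s → PN.{u} s n →
  ∀ (R : Type u) [CommRing R] [IsLocalRing R] [IsNoetherianRing R],
  ringKrullDim R ≤ (2 * s : ℕ) → IsUnit ((s + 1).factorial : R) →
  ∀ v : Unit ⊕ Fin (s + 1) → MvPolynomial (Fin (n + 1)) R, Um v → REq v (row 1 0)

/-- N3. From local rings to all rings.
Proof. `A = MvPolynomial (Fin n) R`, `Γ : A → A[T]`, `X_i ↦ X_i T`, `R → R`; `V = Γ v`, `V(1) = v`, `V(0)` = constant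
term.  Claim: `V ~ V(0)` over `A[T]`; then put `T = 1` (B7).  A5: let `𝔫` be a maximal ideal of `A`, `𝔭 = 𝔫 ∩ R`.  `R_𝔭` is
local, Noetherian, `dim R_𝔭 ≤ dim R ≤ 2s`, so `v ~ (1;0)` over `MvPolynomial (Fin n) R_𝔭` by hypothesis.  Apply the ring
map `MvPolynomial (Fin n) R_𝔭 → A_𝔫[T]`, `X_i ↦ X_i T`, `R_𝔭 → A_𝔫` (`Localization.localRingHom` or
`IsLocalization.lift`): `V ~ (1;0)` over `A_𝔫[T]`.  `V(0)` is (the image of) a unimodular row over `R_𝔭`: `~ (1;0)`
(H4).
Hypotheses: hA5 hB7 hH4. -/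
def StN3 : Prop := ∀ s n : ℕ, 1 ≤ s →
  (∀ (R : Type u) [CommRing R] [IsLocalRing R] [IsNoetherianRing R],
    ringKrullDim R ≤ (2 * s : ℕ) → IsUnit ((s + 1).factorial : R) →
    ∀ v : Unit ⊕ Fin (s + 1) → MvPolynomial (Fin n) R, Um v → REq v (row 1 0)) → PN.{u} s n

/-- N4. THEOREM (several variables).
Proof. Induction on `n`.  `n = 0`: every element of `MvPolynomial (Fin 0) R` is constant
(`MvPolynomial.isEmptyAlgEquiv`, `MvPolynomial.eq_C_of_isEmpty`), `REq` is reflexive (B7).  Step: N2, N3.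
Hypotheses: hB7 hN2 hN3. -/
def StN4 : Prop := ∀ s n : ℕ, 1 ≤ s → PN.{u} s n

end Pool.Agent.Helper75.FU
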