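import Pool.Agent.Helper91.GU.Defs
import Pool.Agent.Helper91.GU.StA
import Pool.Agent.Helper91.GU.StB
import Pool.Agent.Helper91.GU.StF
import Pool.Agent.Helper91.GU.StH
import Pool.Agent.Helper75.FU.StG
import Pool.Agent.Helper75.FU.StP
import Pool.Agent.Helper75.FU.StL

/-!
# Project FU, block M: monoid algebras in characteristic `p > s + 1`

`R` Noetherian local of characteristic `p > s + 1`, `dim R ≤ 2 s`, `N` a commutative monoid with an injective additive
map `L : N → ℕ^k` whose image contains positive multiples of the unit vectors.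
THEOREM (M6): every unimodular row of length `s + 2` over the monoid algebra `R[N]` is equivalent to `(1;0)`.
Idea: by induction on the faces we may assume that the row is `(1;0)` modulo the monomials in the interior; by L5 the
`p^e`-th power of such a row comes from a polynomial ring `R[Y_1..Y_k] → R[N]` (block P: several variables), and the row
is equivalent to its `p^e`-th power for suitable large `e` (G5).
-/

set_option autoImplicit false

namespace Pool.Agent.Helper75.FU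

open Polynomial Pool.Agent.Helper91.GU

universe u

/-- M1. REDUCTION TO THE INTERIOR (formal).  `π_i` commuting idempotent ring endomorphisms of `A` (`i < k`).  Suppose that
every unimodular row fixed by `π_i` is the first row of an invertible matrix fixed by `π_i`.  Then every unimodular row
is equivalent to a row `v'` with `π_i(v') = (1;0)` for all `i`.
Proof. Induction on a finite set `J` of indices: `v ~ v'` with `π_i(v') = (1;0)` for `i ∈ J`.  Step `J ∪ {j}`: let
`π_i(v) = (1;0)` for `i ∈ J`; `π_j(v)` is unimodular and fixed by `π_j`.  Claim: for every `J' ⊂ J` there is an invertible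
`σ` with `π_j(σ) = σ`, `(1;0) σ = π_j(v)`, `π_i(σ) = 1` for `i ∈ J'`.  `J' = ∅`: hypothesis.  From `J'` to `J' ∪ {l}`:
`σ' = π_l(σ)⁻¹ σ`.  `(1;0) π_l(σ) = π_l((1;0) σ) = π_l π_j (v) = π_j π_l(v) = (1;0)`, so `(1;0) σ' = (1;0) σ = π_j(v)`;
`π_j(σ') = π_l(π_j(σ))⁻¹ π_j(σ) = σ'`; `π_i(σ') = π_l(π_i(σ))⁻¹ π_i(σ) = 1` for `i ∈ J'`;
`π_l(σ') = π_l(σ)⁻¹ π_l(σ) = 1`.  With `J' = J` put `v' = v σ⁻¹`: `π_j(v') = π_j(v) σ⁻¹ = (1;0)`, and for `i ∈ J`
`π_i(v') = (1;0) π_i(σ)⁻¹ = (1;0)`.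
Hypotheses: hB7. -/
def StM1 : Prop := ∀ (A : Type u) [CommRing A] (k r : ℕ) (π : Fin k → A →+* A),
  (∀ i j x, π i (π j x) = π j (π i x)) → (∀ i x, π i (π i x) = π i x) →
  (∀ (i : Fin k) (v : Unit ⊕ Fin r → A), Um v → (∀ l, π i (v l) = v l) →
    ∃ g : Matrix (Unit ⊕ Fin r) (Unit ⊕ Fin r) A, IsUnit g.det ∧ g.map (π i) = g ∧
      Matrix.vecMul (row 1 0) g = v) →
  ∀ v : Unit ⊕ Fin r → A, Um v → ∃ v' : Unit ⊕ Fin r → A, REq v v' ∧
    ∀ i l, π i (v' l) = row (1 : A) (0 : Fin r → A) l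

/-- M2. The dual row.
Proof. `v·w⁰ = 1`, `c = 1 - v_0` (`v_0` = first entry), `π_i(c) = 0`.  `w_0 = 1 + c w⁰_0`, `w_l = c w⁰_l` for the other
entries: `v·w = v_0 + c (v·w⁰) = 1`.
Hypotheses: none. -/
def StM2 : Prop := ∀ (A : Type u) [CommRing A] (k r : ℕ) (π : Fin k → A →+* A)
  (v : Unit ⊕ Fin r → A), Um v → (∀ i l, π i (v l) = row (1 : A) (0 : Fin r → A) l) →
  ∃ w : Unit ⊕ Fin r → A, v ⬝ᵥ w = 1 ∧ ∀ i l, π i (w l) = row (1 : A) (0 : Fin r → A) l

/-- M3. The face maps.  `κ : N → ℕ` additive: setting the monomials with `κ(m) > 0` to zero is a ring endomorphism of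
`R[N]`.
Proof. `κ(m + m') = 0` iff `κ(m) = 0 = κ(m')`.  `AddMonoidAlgebra.lift` (or `liftNCRingHom`) for the multiplicative map
`m ↦ single m 1` if `κ(m) = 0`, `0` otherwise; the formula holds for `single m c`, extend by additivity.
Hypotheses: none. -/
def StM3 : Prop := ∀ (R : Type u) [CommRing R] (N : Type) [AddCommMonoid N] (κ : N →+ ℕ),
  ∃ π : AddMonoidAlgebra R N →+* AddMonoidAlgebra R N,
    ∀ (f : AddMonoidAlgebra R N) (m : N), (π f).coeff m = if κ m = 0 then f.coeff m else 0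

/-- M4. Faces.
Proof. `N₀ = ker κ`, `ι : R[N₀] → R[N]` (`AddMonoidAlgebra.mapDomainRingHom`), injective, its image is the set of the
elements fixed by `π` (support in `N₀`).  `v = ι(v')`; `v·w = 1` implies `v·π(w) = 1`, `π(w) = ι(w')`, so `ι(v'·w') = 1`,
`v'·w' = 1`.  By hypothesis `v' g' = (1;0)`; `g = ι(g'⁻¹)`.
Hypotheses: none. -/
def StM4 : Prop := ∀ (R : Type u) [CommRing R] (N : Type) [AddCommMonoid N] (κ : N →+ ℕ) (r : ℕ),
  (∀ v : Unit ⊕ Fin r → AddMonoidAlgebra R (AddMonoidHom.mker κ), Um v → REq v (row 1 0)) →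
  ∀ π : AddMonoidAlgebra R N →+* AddMonoidAlgebra R N,
  (∀ (f : AddMonoidAlgebra R N) (m : N), (π f).coeff m = if κ m = 0 then f.coeff m else 0) →
  ∀ v : Unit ⊕ Fin r → AddMonoidAlgebra R N, Um v → (∀ l, π (v l) = v l) →
  ∃ g : Matrix (Unit ⊕ Fin r) (Unit ⊕ Fin r) (AddMonoidAlgebra R N), IsUnit g.det ∧
    g.map π = g ∧ Matrix.vecMul (row 1 0) g = v

/-- M5. THE INTERIOR.  The row `v` agrees with `(1;0)` at all monomials `m` with some coordinate `L(m)_i = 0`.  Then
`v ~ (1;0)`.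
Proof. M3 for `κ = L(·)_i` gives `π_i`, and the hypothesis says `π_i(v) = (1;0)`; M2: `v·w = 1` with `π_i(w) = (1;0)`.  So
every `m ≠ 0` in the support of an entry of `v` or `w` has `L(m)_i > 0` for all `i`.  Let `K` be the set of the `L(m)` for
these `m ≠ 0`, `M = range L`.  L5: `e₁`, `F_j = L(G_j)`, and `p^{e₁} m = ∑ a_j(m) G_j` (`L` is injective).  G5: there is
`e ≥ e₁` with `v ~ (v_l^q)_l`, `q = p^e`.  Replacing `a(m)` by `p^{e-e₁} a(m)` we have `q m = ∑ a_j(m) G_j` for all these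
`m`, and `a(0) = 0`.
`η : MvPolynomial (Fin k) R → R[N]`, `Y_j ↦ single (G_j) 1`: `η(monomial a c) = single (∑ a_j G_j) c`; `η` is injective since
`a ↦ ∑ a_j F_j` is injective.  In characteristic `p`: `(∑ single m c_m)^q = ∑ single (q m) (c_m^q)`; so
`V_l = ∑_m monomial (a(m)) (v_l(m)^q)` satisfies `η(V_l) = v_l^q`, similarly `η(W_l) = w_l^q`, and
`η(∑ V_l W_l) = (∑ v_l w_l)^q = 1`, so `∑ V_l W_l = 1`: `V` is unimodular.  `(s+1)!` is a unit in `R` (characteristic
`p > s + 1`).  N4: `V ~` (constant terms), a unimodular row over `R`, `~ (1;0)` (H4, B7).  So `(v_l^q) = η(V) ~ (1;0)`, and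
`v ~ (1;0)`.
Hypotheses: hB7 hH4 hG5 hN4 hL5 hM2 hM3. -/
def StM5 : Prop := ∀ (p s k : ℕ), p.Prime → 1 ≤ s → s + 1 < p →
  ∀ (R : Type u) [CommRing R] [IsLocalRing R] [IsNoetherianRing R] [CharP R p],
  ringKrullDim R ≤ (2 * s : ℕ) →
  ∀ (N : Type) [AddCommMonoid N] (L : N →+ (Fin k → ℕ)), Function.Injective L →
  ∀ D : ℕ, 0 < D → (∀ i, ∃ g : N, L g = Pi.single i D) →
  ∀ v : Unit ⊕ Fin (s + 1) → AddMonoidAlgebra R N, Um v →
  (∀ (i : Fin k) (m : N), L m i = 0 → ∀ l, (v l).coeff m =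
    (row (1 : AddMonoidAlgebra R N) (0 : Fin (s + 1) → AddMonoidAlgebra R N) l).coeff m) →
  REq v (row 1 0)

/-- M6. THEOREM for monoid algebras.
Proof. Induction on `k`.  `k = 0`: M5 (its last hypothesis is empty).  `k + 1`: for `i < k + 1` let `κ_i(m) = L(m)_i`,
`N_i = ker κ_i` and `L_i : N_i → ℕ^k`, `m ↦ (L(m)_{i.succAbove j})_j`: injective (the missing coordinate is `0`), its
image contains the `D e_j`.  By induction all unimodular rows of length `s + 2` over `R[N_i]` are `~ (1;0)`; M4 gives the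
hypothesis of M1 for the maps `π_i` of M3 (they commute and are idempotent by the formula).  M1: `v ~ v'` with
`π_i(v') = (1;0)` for all `i`; M5 for `v'` (unimodular: B7).
Hypotheses: hB7 hM1 hM3 hM4 hM5. -/
def StM6 : Prop := ∀ (p s k : ℕ), p.Prime → 1 ≤ s → s + 1 < p →
  ∀ (R : Type u) [CommRing R] [IsLocalRing R] [IsNoetherianRing R] [CharP R p],
  ringKrullDim R ≤ (2 * s : ℕ) →
  ∀ (N : Type) [AddCommMonoid N] (L : N →+ (Fin k → ℕ)), Function.Injective L →
  ∀ D : ℕ, 0 < D → (∀ i, ∃ g : N, L g = Pi.single i D) →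
  ∀ v : Unit ⊕ Fin (s + 1) → AddMonoidAlgebra R N, Um v → REq v (row 1 0)

/-- every element of `A` has a `p^e`-th power which is a combination of monomials lying in `A` -/
def PMono {R : Type u} [CommRing R] {n : ℕ} (p : ℕ) (A : Subalgebra R (MvPolynomial (Fin n) R)) :
    Prop :=
  ∀ a ∈ A, ∃ e : ℕ, ∀ m ∈ (a ^ p ^ e).support, MvPolynomial.monomial m (1 : R) ∈ A

/-- finitely many monomials of `A` lie in a simplicial cone spanned by monomials of `A`: every finite set `K` of exponents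
of monomials of `A` there are linearly independent exponents `g_1, .., g_k` of monomials of `A` such that every
`m ∈ K` has a positive multiple in `ℕ g_1 + .. + ℕ g_k` -/
def Simpl {R : Type u} [CommRing R] {n : ℕ} (A : Subalgebra R (MvPolynomial (Fin n) R)) : Prop :=
  ∀ K : Finset (Fin n →₀ ℕ), (∀ m ∈ K, MvPolynomial.monomial m (1 : R) ∈ A) →
    ∃ (k : ℕ) (g : Fin k → (Fin n →₀ ℕ)), (∀ i, MvPolynomial.monomial (g i) (1 : R) ∈ A) ∧
      LinearIndependent ℚ (fun (i : Fin k) (j : Fin n) => ((g i j : ℕ) : ℚ)) ∧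
      ∀ m ∈ K, ∃ c : ℕ, 1 ≤ c ∧ c • m ∈ AddSubmonoid.closure (Set.range g)

/-- M7. THEOREM for subalgebras of `R[X_1..X_n]`.
Proof. `v·w = 1` over `A`.  There is `e₀` such that for all entries `a` of `v`, `w` and all `e ≥ e₀` the monomials of
`a^{p^e}` lie in `A` (a power of a combination of monomials of `A` is a combination of monomials of `A`).  G5 over
`A`: `e ≥ e₀` with `v ~ v^q = (v_l^q)_l`, `q = p^e`.  `v^q·w^q = (v·w)^q = 1` (characteristic `p`).  `K` = the union of the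
supports of the `v_l^q`, `w_l^q` (as elements of `R[X_1..X_n]`); `Simpl`: `g_1, .., g_k`, and `D ≥ 1` with
`D m ∈ ∑ ℕ g_i` for all `m ∈ K` (product of the `c`).  `N` = submonoid of `ℕ^n` generated by `K` and the `g_i`; all its
monomials lie in `A`, and `D m ∈ ∑ ℕ g_i` for all `m ∈ N`; the coefficients are unique (linear independence), let `L(m) ∈ ℕ^k`
be their vector: `L : N → ℕ^k` is additive, injective (`L(m)` determines `D m`), `L(g_i) = D e_i`.
`ι : R[N] → R[X_1..X_n]`, `single m c ↦ monomial m c`, is an injective ring map with image in `A`;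
`v^q = ι(v')`, `w^q = ι(w')`, `v'·w' = 1`.  M6: `v' ~ (1;0)` over `R[N]`; B7 for `R[N] → A`: `v^q ~ (1;0)` over `A`.
Hypotheses: hB7 hG5 hM6. -/
def StM7 : Prop := ∀ (p s n : ℕ), p.Prime → 1 ≤ s → s + 1 < p →
  ∀ (R : Type u) [CommRing R] [IsLocalRing R] [IsNoetherianRing R] [CharP R p],
  ringKrullDim R ≤ (2 * s : ℕ) →
  ∀ A : Subalgebra R (MvPolynomial (Fin n) R), PMono p A → Simpl A →
  ∀ v : Unit ⊕ Fin (s + 1) → A, Um v → REq v (row 1 0)

end Pool.Agent.Helper75.FU
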